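import Mathlib
import Pool.Agent.Lib_helper69.HKK.Ifc

set_option autoImplicit false

namespace HKK

open MeasureTheory QG HK HKC

theorem ka_z0_pos : 0 < z0 := by unfold z0; positivity

theorem ka_wh_nonneg (t : Fin 4 → ℝ) : 0 ≤ wh t := le_max_left _ _

theorem ka_osc_ge (t : Fin 4 → ℝ) (i j : Fin 4) : t i - t j ≤ osc t := by
  unfold osc
  have h1 := Finset.le_sup' t (Finset.mem_univ i)
  have h2 := Finset.inf'_le t (Finset.mem_univ j)
  linarith

theorem ka_osc_ex (t : Fin 4 → ℝ) : ∃ i j, (∀ k, t k ≤ t i) ∧ (∀ k, t j ≤ t k) ∧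
    osc t = t i - t j := by
  obtain ⟨i, -, hi⟩ := Finset.exists_mem_eq_sup' (Finset.univ_nonempty (α := Fin 4)) t
  obtain ⟨j, -, hj⟩ := Finset.exists_mem_eq_inf' (Finset.univ_nonempty (α := Fin 4)) t
  refine ⟨i, j, fun k => ?_, fun k => ?_, ?_⟩
  · rw [← hi]; exact Finset.le_sup' t (Finset.mem_univ k)
  · rw [← hj]; exact Finset.inf'_le t (Finset.mem_univ k)
  · unfold osc; rw [hi, hj]

theorem ka_osc_le (t : Fin 4 → ℝ) {c : ℝ} (h : ∀ i j, t i - t j ≤ c) : osc t ≤ c := by
  obtain ⟨i, j, -, -, hij⟩ := ka_osc_ex t
  rw [hij]; exact h i j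

theorem ka_osc_nonneg (t : Fin 4 → ℝ) : 0 ≤ osc t := by
  have := ka_osc_ge t 0 0
  simpa using this

theorem ka_osc_shift (t : Fin 4 → ℝ) (r : ℝ) : osc (fun i => t i + r) = osc t := by
  apply le_antisymm
  · apply ka_osc_le
    intro i j
    have := ka_osc_ge t i j
    linarith
  · apply ka_osc_le
    intro i j
    have := ka_osc_ge (fun i => t i + r) i j
    linarith

theorem ka_osc_meas : Measurable osc := by
  have h1 : Measurable (fun t : Fin 4 → ℝ => Finset.univ.sup' Finset.univ_nonempty t) := by
    have : Continuous (fun t : Fin 4 → ℝ => Finset.univ.sup' Finset.univ_nonempty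
        (fun i => t i)) := by
      apply Continuous.finset_sup'_apply
      intro i _
      exact continuous_apply i
    exact this.measurable
  have h2 : Measurable (fun t : Fin 4 → ℝ => Finset.univ.inf' Finset.univ_nonempty t) := by
    have : Continuous (fun t : Fin 4 → ℝ => Finset.univ.inf' Finset.univ_nonempty
        (fun i => t i)) := by
      apply Continuous.finset_inf'_apply
      intro i _
      exact continuous_apply i
    exact this.measurable
  exact h1.sub h2

theorem ka_near_meas (η : ℝ) : MeasurableSet {t : Fin 4 → ℝ | near η t} := by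
  have : {t : Fin 4 → ℝ | near η t} = ⋃ i : Fin 4, ⋃ j : Fin 4, {t | i ≠ j ∧ |t i - t j| ≤ η} := by
    ext t
    simp [near]
  rw [this]
  refine MeasurableSet.iUnion fun i => MeasurableSet.iUnion fun j => ?_
  by_cases hij : i = j
  · have : {t : Fin 4 → ℝ | i ≠ j ∧ |t i - t j| ≤ η} = ∅ := by
      ext t; simp [hij]
    rw [this]; exact MeasurableSet.empty
  · have : {t : Fin 4 → ℝ | i ≠ j ∧ |t i - t j| ≤ η} = {t | |t i - t j| ≤ η} := by
      ext t; simp [hij]
    rw [this]
    have hc : Continuous (fun t : Fin 4 → ℝ => |t i - t j|) :=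
      ((continuous_apply i).sub (continuous_apply j)).abs
    exact measurableSet_le hc.measurable measurable_const

/-- the two parts of the weight -/
theorem w12 (t : Fin 4 → ℝ) : w1 t + w2 t = wh t ∧ 0 ≤ w1 t ∧ 0 ≤ w2 t ∧ w2 t ≤ z0 ∧
    w2 t ≤ wh t ∧ w1 t ≤ wh t := by
  have hw := ka_wh_nonneg t
  have hz := ka_z0_pos
  unfold w1 w2
  set w := wh t with hwdef
  have hpos : 0 < w + z0 := by linarith
  refine ⟨?_, ?_, ?_, ?_, ?_, ?_⟩
  · field_simp
  · positivity
  · positivity
  · rw [div_le_iff₀ hpos]; nlinarith
  · rw [div_le_iff₀ hpos]; nlinarith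
  · rw [div_le_iff₀ hpos]; nlinarith

/-- they are measurable -/
theorem w12_meas : Measurable wh ∧ Measurable w1 ∧ Measurable w2 ∧ ∀ η : ℝ, Measurable (er η) := by
  have hwh : Measurable wh := by
    unfold wh
    exact measurable_const.max (measurable_const.sub ka_osc_meas)
  refine ⟨hwh, ?_, ?_, ?_⟩
  · unfold w1
    exact (hwh.pow_const 2).div (hwh.add_const z0)
  · unfold w2
    exact (hwh.mul_const z0).div (hwh.add_const z0)
  · intro η
    unfold er
    refine Measurable.add_const ?_ _
    exact Measurable.ite (ka_near_meas η) measurable_const measurable_const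

/-- they do not change under constants -/
theorem w12_shift (t : Fin 4 → ℝ) (r : ℝ) : wh (fun i => t i + r) = wh t ∧
    w1 (fun i => t i + r) = w1 t ∧ w2 (fun i => t i + r) = w2 t := by
  have h : wh (fun i => t i + r) = wh t := by unfold wh; rw [ka_osc_shift]
  refine ⟨h, ?_, ?_⟩
  · unfold w1; rw [h]
  · unfold w2; rw [h]

/-- the error term is nonnegative and increasing -/
theorem er_mono (t : Fin 4 → ℝ) {η η' : ℝ} (h : 0 ≤ η) (h' : η ≤ η') : 0 ≤ er η t ∧
    er η t ≤ er η' t := by
  have hz := ka_z0_pos
  have h0 : 0 ≤ η' := h.trans h'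
  have hsq : η ^ 2 / z0 ≤ η' ^ 2 / z0 := by gcongr
  have hsq0 : 0 ≤ η ^ 2 / z0 := by positivity
  unfold er
  by_cases hn : near η t
  · have hn' : near η' t := by
      obtain ⟨i, j, hij, hle⟩ := hn
      exact ⟨i, j, hij, hle.trans h'⟩
    rw [if_pos hn, if_pos hn']
    exact ⟨by linarith, by linarith⟩
  · rw [if_neg hn]
    refine ⟨by linarith, ?_⟩
    split_ifs <;> linarith

/-- the inequality for real numbers -/
theorem ka_real {z p m k η ζ : ℝ} (hζ : 0 < ζ) (hz : 0 < z) (hη : 0 ≤ η) (hk : 0 ≤ k)
    (hpm : p + m = 2 * z - k) (hp : |p - z| ≤ η) (hm : |m - z| ≤ η) :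
    z ^ 2 / (z + ζ) ≤ Real.sqrt (((max 0 p) ^ 2 / (max 0 p + ζ)) *
      ((max 0 m) ^ 2 / (max 0 m + ζ))) + (k + η ^ 2 / ζ) := by
  have hzζ : 0 < z + ζ := by linarith
  have key : (k * z + η ^ 2) / (z + ζ) ≤ k + η ^ 2 / ζ := by
    rw [add_div]
    have h1 : k * z / (z + ζ) ≤ k := by
      rw [div_le_iff₀ hzζ]; nlinarith
    have h2 : η ^ 2 / (z + ζ) ≤ η ^ 2 / ζ := by
      apply div_le_div_of_nonneg_left (by positivity) hζ (by linarith)
    linarith
  by_cases hc : z ^ 2 ≤ k * z + η ^ 2
  · have h1 : z ^ 2 / (z + ζ) ≤ (k * z + η ^ 2) / (z + ζ) := by gcongr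
    have h2 := Real.sqrt_nonneg (((max 0 p) ^ 2 / (max 0 p + ζ)) *
      ((max 0 m) ^ 2 / (max 0 m + ζ)))
    linarith
  · push Not at hc
    have hηz : η < z := by
      have : η ^ 2 < z ^ 2 := by nlinarith
      nlinarith
    rw [abs_le] at hp hm
    have hp0 : 0 < p := by linarith
    have hm0 : 0 < m := by linarith
    rw [max_eq_right hp0.le, max_eq_right hm0.le]
    have hprod : z ^ 2 - k * z - η ^ 2 ≤ p * m := by
      have hd : (p - m) ^ 2 ≤ 4 * η ^ 2 := by
        have : |p - m| ≤ 2 * η := by rw [abs_le]; constructor <;> linarith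
        nlinarith [sq_abs (p - m), abs_nonneg (p - m)]
      have hs : (p + m) ^ 2 = (2 * z - k) ^ 2 := by rw [hpm]
      nlinarith [sq_nonneg k]
    have hsqrt : p * m / (z + ζ) ≤ Real.sqrt ((p ^ 2 / (p + ζ)) * (m ^ 2 / (m + ζ))) := by
      apply Real.le_sqrt_of_sq_le
      rw [div_pow, div_mul_div_comm, mul_pow]
      apply div_le_div_of_nonneg_left (by positivity) (by positivity)
      nlinarith [sq_nonneg (p - m)]
    have h3 : z ^ 2 / (z + ζ) ≤ (p * m + (k * z + η ^ 2)) / (z + ζ) := by
      gcongr
      linarith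
    rw [add_div] at h3
    linarith

/-- K1: the inequality for a cell -/
theorem cell_ineq (t h : Fin 4 → ℝ) {η : ℝ} (hη : osc h ≤ η) :
    w1 t ≤ Real.sqrt (w1 (fun i => t i + h i) * w1 (fun i => t i - h i)) + er η t := by
  have hη0 : 0 ≤ η := (ka_osc_nonneg h).trans hη
  have hh : ∀ i j, h i - h j ≤ η := fun i j => (ka_osc_ge h i j).trans hη
  have hs0 := Real.sqrt_nonneg (w1 (fun i => t i + h i) * w1 (fun i => t i - h i))
  have he0 := (er_mono t hη0 le_rfl).1
  by_cases hz : 2 - osc t ≤ 0
  · have : w1 t = 0 := by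
      unfold w1 wh
      rw [max_eq_left hz]; simp
    rw [this]; linarith
  · push Not at hz
    obtain ⟨i, j, hi, hj, hij⟩ := ka_osc_ex t
    have hP1 : osc (fun i => t i + h i) ≤ osc t + η := by
      apply ka_osc_le
      intro a b
      have := ka_osc_ge t a b
      have := hh a b
      linarith
    have hP2 : osc t ≤ osc (fun i => t i + h i) + η := by
      rw [hij]
      have := ka_osc_ge (fun i => t i + h i) i j
      have := hh j i
      linarith
    have hM1 : osc (fun i => t i - h i) ≤ osc t + η := by
      apply ka_osc_le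
      intro a b
      have := ka_osc_ge t a b
      have := hh b a
      linarith
    have hM2 : osc t ≤ osc (fun i => t i - h i) + η := by
      rw [hij]
      have := ka_osc_ge (fun i => t i - h i) i j
      have := hh i j
      linarith
    have hk0 : 0 ≤ osc (fun i => t i + h i) + osc (fun i => t i - h i) - 2 * osc t := by
      have h1 := ka_osc_ge (fun i => t i + h i) i j
      have h2 := ka_osc_ge (fun i => t i - h i) i j
      rw [hij]
      linarith
    have hker : osc (fun i => t i + h i) + osc (fun i => t i - h i) - 2 * osc t + η ^ 2 / z0 ≤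
        er η t := by
      unfold er
      by_cases hn : near η t
      · rw [if_pos hn]; linarith
      · rw [if_neg hn]
        have hf : ∀ a b : Fin 4, a ≠ b → η < |t a - t b| := by
          intro a b hab
          by_contra hc
          exact hn ⟨a, b, hab, not_lt.1 hc⟩
        have hi' : ∀ k, t k + |h i - h k| ≤ t i := by
          intro k
          by_cases hki : i = k
          · subst hki; simp
          · have h1 := hf i k hki
            rw [abs_of_nonneg (by linarith [hi k])] at h1
            have : |h i - h k| ≤ η := by rw [abs_le]; constructor <;> linarith [hh i k, hh k i]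
            linarith
        have hj' : ∀ k, t j + |h j - h k| ≤ t k := by
          intro k
          by_cases hki : k = j
          · subst hki; simp
          · have h1 := hf k j hki
            rw [abs_of_nonneg (by linarith [hj k])] at h1
            have : |h j - h k| ≤ η := by rw [abs_le]; constructor <;> linarith [hh j k, hh k j]
            linarith
        have h1 : osc (fun i => t i + h i) ≤ (t i + h i) - (t j + h j) := by
          apply ka_osc_le
          intro a b
          have e1 := hi' a
          have e2 := hj' b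
          have e3 := neg_abs_le (h i - h a)
          have e4 := le_abs_self (h j - h b)
          linarith
        have h2 : osc (fun i => t i - h i) ≤ (t i - h i) - (t j - h j) := by
          apply ka_osc_le
          intro a b
          have e1 := hi' a
          have e2 := hj' b
          have e3 := le_abs_self (h i - h a)
          have e4 := neg_abs_le (h j - h b)
          linarith
        rw [hij]
        linarith
    have hreal := ka_real (z := 2 - osc t) (p := 2 - osc (fun i => t i + h i))
      (m := 2 - osc (fun i => t i - h i))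
      (k := osc (fun i => t i + h i) + osc (fun i => t i - h i) - 2 * osc t) (η := η)
      ka_z0_pos hz hη0 hk0 (by ring) (by rw [abs_le]; constructor <;> linarith)
      (by rw [abs_le]; constructor <;> linarith)
    have hw : w1 t = (2 - osc t) ^ 2 / (2 - osc t + z0) := by
      unfold w1 wh
      rw [max_eq_right hz.le]
    have hwp : w1 (fun i => t i + h i) = (max 0 (2 - osc (fun i => t i + h i))) ^ 2 /
        (max 0 (2 - osc (fun i => t i + h i)) + z0) := rfl
    have hwm : w1 (fun i => t i - h i) = (max 0 (2 - osc (fun i => t i - h i))) ^ 2 /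
        (max 0 (2 - osc (fun i => t i - h i)) + z0) := rfl
    rw [hw, hwp, hwm]
    linarith

end HKK
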