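import Mathlib
import Pool.Agent.Lib_helper69.HKK.Ifc
import Pool.Agent.Lib_helper69.HKK.W.ka

set_option autoImplicit false

namespace HKK

open MeasureTheory QG HK HKC

theorem kb_prod {ι : Type} [DecidableEq ι] (s : Finset ι) {W S e : ι → ℝ} 
    (hS : ∀ i ∈ s, 0 ≤ S i) (hSW : ∀ i ∈ s, S i ≤ W i) (he : ∀ i ∈ s, 0 ≤ e i)
    (h : ∀ i ∈ s, W i ≤ S i + e i) :
    ∏ i ∈ s, W i ≤ ∏ i ∈ s, S i + ∑ i ∈ s, e i * ∏ j ∈ s.erase i, W j := by
  induction s using Finset.induction_on with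
  | empty => simp
  | insert a s ha ih =>
    have hS' : ∀ i ∈ s, 0 ≤ S i := fun i hi => hS i (Finset.mem_insert_of_mem hi)
    have hSW' : ∀ i ∈ s, S i ≤ W i := fun i hi => hSW i (Finset.mem_insert_of_mem hi)
    have he' : ∀ i ∈ s, 0 ≤ e i := fun i hi => he i (Finset.mem_insert_of_mem hi)
    have h' : ∀ i ∈ s, W i ≤ S i + e i := fun i hi => h i (Finset.mem_insert_of_mem hi)
    have IH := ih hS' hSW' he' h'
    have hW' : ∀ i ∈ s, 0 ≤ W i := fun i hi => (hS' i hi).trans (hSW' i hi)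
    have hPW : 0 ≤ ∏ i ∈ s, W i := Finset.prod_nonneg hW'
    rw [Finset.prod_insert ha, Finset.prod_insert ha, Finset.sum_insert ha,
      Finset.erase_insert ha]
    have h1 : ∑ i ∈ s, e i * ∏ j ∈ (insert a s).erase i, W j =
        W a * ∑ i ∈ s, e i * ∏ j ∈ s.erase i, W j := by
      rw [Finset.mul_sum]
      refine Finset.sum_congr rfl fun i hi => ?_
      have hia : i ≠ a := fun h => ha (h ▸ hi)
      rw [Finset.erase_insert_of_ne hia.symm, Finset.prod_insert]
      · ring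
      · exact fun h => ha (Finset.mem_of_mem_erase h)
    rw [h1]
    have hsum : 0 ≤ ∑ i ∈ s, e i * ∏ j ∈ s.erase i, W j :=
      Finset.sum_nonneg fun i hi => mul_nonneg (he' i hi)
        (Finset.prod_nonneg fun j hj => hW' j (Finset.mem_of_mem_erase hj))
    have a1 := h a (Finset.mem_insert_self _ _)
    have a2 := hSW a (Finset.mem_insert_self _ _)
    have a3 := hS a (Finset.mem_insert_self _ _)
    calc W a * ∏ i ∈ s, W i ≤ (S a + e a) * ∏ i ∈ s, W i :=
          mul_le_mul_of_nonneg_right a1 hPW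
      _ = S a * ∏ i ∈ s, W i + e a * ∏ i ∈ s, W i := by ring
      _ ≤ S a * (∏ i ∈ s, S i + ∑ i ∈ s, e i * ∏ j ∈ s.erase i, W j) + e a * ∏ i ∈ s, W i := by
          gcongr
      _ = S a * ∏ i ∈ s, S i + S a * (∑ i ∈ s, e i * ∏ j ∈ s.erase i, W j) +
            e a * ∏ i ∈ s, W i := by ring
      _ ≤ S a * ∏ i ∈ s, S i + W a * (∑ i ∈ s, e i * ∏ j ∈ s.erase i, W j) +
            e a * ∏ i ∈ s, W i := by gcongr
      _ = _ := by ring

/-- a product of numbers with errors -/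
theorem prod_err {ι : Type} [DecidableEq ι] (s : Finset ι) {W S e : ι → ℝ} (hW : ∀ i ∈ s, 0 ≤ W i)
    (hS : ∀ i ∈ s, 0 ≤ S i) (he : ∀ i ∈ s, 0 ≤ e i) (h : ∀ i ∈ s, W i ≤ S i + e i) :
    ∏ i ∈ s, W i ≤ ∏ i ∈ s, S i + ∑ i ∈ s, e i * ∏ j ∈ s.erase i, W j := by
  have := kb_prod s (W := W) (S := fun i => min (S i) (W i)) (e := e)
    (fun i hi => le_min (hS i hi) (hW i hi)) (fun i _ => min_le_right _ _) he
    (fun i hi => by
      rcases le_total (S i) (W i) with h1 | h1
      · rw [min_eq_left h1]; exact h i hi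
      · rw [min_eq_right h1]; linarith [he i hi])
  refine this.trans ?_
  gcongr with i hi
  · exact fun i hi => le_min (hS i hi) (hW i hi)
  · exact min_le_left _ _

/-- measurability and sign -/
theorem FT_meas (n : ℕ) [NeZero n] (T : Finset (Od n)) (v : Od n) : Measurable (FT n T) ∧
    Measurable (Fv n T v) ∧ ∀ a, 0 ≤ FT n T a ∧ 0 ≤ Fv n T v a := by
  have hl : ∀ u : Od n, Measurable fun a : Ev n → ℝ => loc (cn n) a u := fun u => by
    unfold loc
    fun_prop
  have m1 : ∀ u : Od n, Measurable fun a : Ev n → ℝ => w1 (loc (cn n) a u) :=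
    fun u => w12_meas.2.1.comp (hl u)
  have m2 : ∀ u : Od n, Measurable fun a : Ev n → ℝ => w2 (loc (cn n) a u) :=
    fun u => w12_meas.2.2.1.comp (hl u)
  refine ⟨?_, ?_, fun a => ⟨?_, ?_⟩⟩
  · unfold FT
    exact (Finset.measurable_prod _ fun u _ => m1 u).mul (Finset.measurable_prod _ fun u _ => m2 u)
  · unfold Fv
    exact (Finset.measurable_prod _ fun u _ => m1 u).mul (Finset.measurable_prod _ fun u _ => m2 u)
  · exact mul_nonneg (Finset.prod_nonneg fun u _ => (w12 _).2.1)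
      (Finset.prod_nonneg fun u _ => (w12 _).2.2.1)
  · exact mul_nonneg (Finset.prod_nonneg fun u _ => (w12 _).2.1)
      (Finset.prod_nonneg fun u _ => (w12 _).2.2.1)

/-- the weight does not change under constants -/
theorem FT_const (n : ℕ) [NeZero n] (T : Finset (Od n)) (a : Ev n → ℝ) (r : ℝ) :
    FT n T (fun y => a y + r) = FT n T a := by
  unfold FT
  congr 1
  · exact Finset.prod_congr rfl fun v _ => (w12_shift (loc (cn n) a v) r).2.1
  · exact Finset.prod_congr rfl fun v _ => (w12_shift (loc (cn n) a v) r).2.2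

/-- K2, pointwise -/
theorem FT_shift (n : ℕ) [NeZero n] (T : Finset (Od n)) (g a : Ev n → ℝ) {η : Od n → ℝ}
    (hT : ∀ v ∈ T, ∀ i j, g (cn n v i) = g (cn n v j))
    (hη : ∀ v, v ∉ T → osc (loc (cn n) g v) ≤ η v) :
    FT n T a ≤ Real.sqrt (FT n T (fun y => a y + g y) * FT n T (fun y => a y - g y)) +
      ∑ v ∈ Finset.univ \ T, er (η v) (loc (cn n) a v) * Fv n T v a := by
  have ho : ∀ t : Fin 4 → ℝ, 0 ≤ osc t := fun t => by
    unfold osc
    rw [sub_nonneg]
    exact (Finset.inf'_le t (Finset.mem_univ 0)).trans (Finset.le_sup' t (Finset.mem_univ 0))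
  have h1 : ∀ v ∈ T, w2 (loc (cn n) (fun y => a y + g y) v) = w2 (loc (cn n) a v) := fun v hv => by
    rw [← (w12_shift (loc (cn n) a v) (g (cn n v 0))).2.2]
    congr 1
    funext i
    simp only [loc]
    rw [hT v hv i 0]
  have h2 : ∀ v ∈ T, w2 (loc (cn n) (fun y => a y - g y) v) = w2 (loc (cn n) a v) := fun v hv => by
    rw [← (w12_shift (loc (cn n) a v) (-g (cn n v 0))).2.2]
    congr 1
    funext i
    simp only [loc]
    rw [hT v hv i 0, sub_eq_add_neg]
  have hp := prod_err (Finset.univ \ T) (W := fun v => w1 (loc (cn n) a v))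
    (S := fun v => Real.sqrt (w1 (loc (cn n) (fun y => a y + g y) v) *
      w1 (loc (cn n) (fun y => a y - g y) v))) (e := fun v => er (η v) (loc (cn n) a v))
    (fun v _ => (w12 _).2.1) (fun v _ => Real.sqrt_nonneg _)
    (fun v hv => (er_mono _ ((ho _).trans (hη v (Finset.mem_sdiff.1 hv).2)) le_rfl).1)
    (fun v hv => cell_ineq (loc (cn n) a v) (loc (cn n) g v) (hη v (Finset.mem_sdiff.1 hv).2))
  have hQ : 0 ≤ ∏ v ∈ T, w2 (loc (cn n) a v) := Finset.prod_nonneg fun v _ => (w12 _).2.2.1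
  have e1 : Real.sqrt (FT n T (fun y => a y + g y) * FT n T (fun y => a y - g y)) =
      (∏ v ∈ Finset.univ \ T, Real.sqrt (w1 (loc (cn n) (fun y => a y + g y) v) *
      w1 (loc (cn n) (fun y => a y - g y) v))) * ∏ v ∈ T, w2 (loc (cn n) a v) := by
    unfold FT
    rw [Finset.prod_congr rfl h1, Finset.prod_congr rfl h2]
    rw [show ∀ x y z : ℝ, x * z * (y * z) = (x * y) * z ^ 2 from fun x y z => by ring,
      Real.sqrt_mul' _ (sq_nonneg _), Real.sqrt_sq hQ, ← Finset.prod_mul_distrib]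
    congr 1
    rw [Real.sqrt_eq_rpow, ← Real.finsetProd_rpow _ _ fun i _ => mul_nonneg (w12 _).2.1 (w12 _).2.1]
    exact Finset.prod_congr rfl fun v _ => (Real.sqrt_eq_rpow _).symm
  rw [e1]
  calc FT n T a = (∏ v ∈ Finset.univ \ T, w1 (loc (cn n) a v)) * ∏ v ∈ T, w2 (loc (cn n) a v) := rfl
    _ ≤ _ := mul_le_mul_of_nonneg_right hp hQ
    _ = _ := by
      rw [add_mul, Finset.sum_mul]
      congr 1
      refine Finset.sum_congr rfl fun v _ => ?_
      unfold Fv
      ring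

end HKK
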