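import Mathlib
import Pool.Agent.Lib_helper69.HKK.Ifc
import Pool.Agent.Lib_helper69.HKK.W.ka
import Pool.Agent.Lib_helper69.HKK.W.kb

set_option autoImplicit false

namespace HKK

open MeasureTheory QG HK HKC

theorem kc_amgm {γ s x A B : ℝ} (hs : 0 < s) (hA : 0 ≤ A) (hB : 0 ≤ B) :
    2 * γ * Real.sqrt (A * B) ≤
      s / 2 * ((x + γ) ^ 2 * A) + 1 / (2 * s) * B + (s / 2 * ((x - γ) ^ 2 * B) + 1 / (2 * s) * A) := by
  have key : ∀ y a b : ℝ, 0 ≤ a → 0 ≤ b → |y| * (a * b) ≤ s / 2 * (y ^ 2 * a ^ 2) +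
      1 / (2 * s) * b ^ 2 := by
    intro y a b ha hb
    have h1 : 0 ≤ (s * (|y| * a) - b) ^ 2 := sq_nonneg _
    have h2 : y ^ 2 = |y| ^ 2 := (sq_abs y).symm
    have h3 : s / 2 * (y ^ 2 * a ^ 2) + 1 / (2 * s) * b ^ 2 - |y| * (a * b) =
        1 / (2 * s) * (s * (|y| * a) - b) ^ 2 := by
      rw [h2]
      field_simp
      ring
    have h4 : 0 ≤ 1 / (2 * s) * (s * (|y| * a) - b) ^ 2 := by positivity
    linarith
  obtain ⟨a, ha⟩ : ∃ a, a = Real.sqrt A := ⟨_, rfl⟩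
  obtain ⟨b, hb⟩ : ∃ b, b = Real.sqrt B := ⟨_, rfl⟩
  have ha0 : 0 ≤ a := ha ▸ Real.sqrt_nonneg A
  have hb0 : 0 ≤ b := hb ▸ Real.sqrt_nonneg B
  have hA2 : A = a ^ 2 := by rw [ha, Real.sq_sqrt hA]
  have hB2 : B = b ^ 2 := by rw [hb, Real.sq_sqrt hB]
  have h1 : Real.sqrt (A * B) = a * b := by
    rw [Real.sqrt_mul hA, ← ha, ← hb]
  rw [h1]
  have h2 := key (x + γ) a b ha0 hb0
  have h3 := key (x - γ) b a hb0 ha0
  have h4 : 2 * γ ≤ |x + γ| + |x - γ| := by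
    have h5 := le_abs_self (x + γ)
    have h6 := neg_abs_le (x - γ)
    linarith
  have h5 : 2 * γ * (a * b) ≤ (|x + γ| + |x - γ|) * (a * b) :=
    mul_le_mul_of_nonneg_right h4 (mul_nonneg ha0 hb0)
  have h6 : (|x + γ| + |x - γ|) * (a * b) = |x + γ| * (a * b) + |x - γ| * (b * a) := by ring
  rw [hA2, hB2]
  linarith

theorem kc_sum {ι : Type} (s : Finset ι) (f : ι → ℝ) :
    ENNReal.ofReal (∑ i ∈ s, f i) ≤ ∑ i ∈ s, ENNReal.ofReal (f i) := by
  classical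
  induction s using Finset.induction_on with
  | empty => simp
  | insert a s ha ih =>
    rw [Finset.sum_insert ha, Finset.sum_insert ha]
    exact ENNReal.ofReal_add_le.trans (add_le_add le_rfl ih)

/-- the pointwise inequality -/
theorem kc_point (n : ℕ) [NeZero n] (T : Finset (Od n)) (g g' : Ev n → ℝ) (c : ℝ)
    (hgg : ∀ y, g y = g' y + c) {η : Od n → ℝ} {s γ : ℝ}
    (hT : ∀ v ∈ T, ∀ i j, g (cn n v i) = g (cn n v j))
    (hη : ∀ v, v ∉ T → osc (loc (cn n) g v) ≤ η v) (hs : 0 < s) (hγ : 0 ≤ γ)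
    (hg : g (dg n n) - g (dg n 0) = γ) (a : Ev n → ℝ) :
    ENNReal.ofReal (2 * γ) * ENNReal.ofReal (FT n T a) ≤
      (ENNReal.ofReal (s / 2) * ENNReal.ofReal (((a + g') (dg n n) - (a + g') (dg n 0)) ^ 2 *
          FT n T (a + g')) +
        ENNReal.ofReal (1 / (2 * s)) * ENNReal.ofReal (FT n T (a + -g'))) +
      (ENNReal.ofReal (s / 2) * ENNReal.ofReal (((a + -g') (dg n n) - (a + -g') (dg n 0)) ^ 2 *
          FT n T (a + -g')) +
        ENNReal.ofReal (1 / (2 * s)) * ENNReal.ofReal (FT n T (a + g'))) +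
      ENNReal.ofReal (2 * γ) * ∑ v ∈ Finset.univ \ T,
        ENNReal.ofReal (er (η v) (loc (cn n) a v) * Fv n T v a) := by
  have h1 := FT_shift n T g a hT hη
  have e1 : FT n T (fun y => a y + g y) = FT n T (a + g') := by
    rw [← FT_const n T (a + g') c]
    congr 1
    funext y
    rw [Pi.add_apply, hgg y]
    ring
  have e2 : FT n T (fun y => a y - g y) = FT n T (a + -g') := by
    rw [← FT_const n T (a + -g') (-c)]
    congr 1
    funext y
    rw [Pi.add_apply, Pi.neg_apply, hgg y]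
    ring
  rw [e1, e2] at h1
  have hm := FT_meas n T (cc n (dg n 0) 0 0)
  have hA : 0 ≤ FT n T (a + g') := (hm.2.2 _).1
  have hB : 0 ≤ FT n T (a + -g') := (hm.2.2 _).1
  have hX : (a + g') (dg n n) - (a + g') (dg n 0) = (a (dg n n) - a (dg n 0)) + γ := by
    rw [Pi.add_apply, Pi.add_apply, ← hg, hgg, hgg]
    ring
  have hY : (a + -g') (dg n n) - (a + -g') (dg n 0) = (a (dg n n) - a (dg n 0)) - γ := by
    rw [Pi.add_apply, Pi.add_apply, Pi.neg_apply, Pi.neg_apply, ← hg, hgg, hgg]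
    ring
  rw [hX, hY]
  have h2 := kc_amgm (γ := γ) (x := a (dg n n) - a (dg n 0)) hs hA hB
  obtain ⟨A, hAe⟩ : ∃ A, A = FT n T (a + g') := ⟨_, rfl⟩
  obtain ⟨B, hBe⟩ : ∃ B, B = FT n T (a + -g') := ⟨_, rfl⟩
  obtain ⟨x, hxe⟩ : ∃ x, x = a (dg n n) - a (dg n 0) := ⟨_, rfl⟩
  obtain ⟨F, hFe⟩ : ∃ F, F = FT n T a := ⟨_, rfl⟩
  obtain ⟨E, hEe⟩ : ∃ E : Od n → ℝ, E = fun v => er (η v) (loc (cn n) a v) * Fv n T v a :=
    ⟨_, rfl⟩
  have hE2 : ∀ v, er (η v) (loc (cn n) a v) * Fv n T v a = E v := fun v => by rw [hEe]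
  simp only [← hAe, ← hBe, ← hxe, ← hFe, hE2] at h1 h2 ⊢
  have hs2 : 0 ≤ s / 2 := by positivity
  have hs3 : 0 ≤ 1 / (2 * s) := by positivity
  have hγ2 : 0 ≤ 2 * γ := by positivity
  have h3 : 2 * γ * F ≤ (s / 2 * ((x + γ) ^ 2 * A) + 1 / (2 * s) * B) +
      (s / 2 * ((x - γ) ^ 2 * B) + 1 / (2 * s) * A) + 2 * γ * ∑ v ∈ Finset.univ \ T, E v := by
    have h4 := mul_le_mul_of_nonneg_left h1 hγ2
    rw [mul_add] at h4
    linarith
  rw [← ENNReal.ofReal_mul hγ2]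
  refine (ENNReal.ofReal_le_ofReal h3).trans ?_
  refine ENNReal.ofReal_add_le.trans (add_le_add ?_ ?_)
  · refine ENNReal.ofReal_add_le.trans (add_le_add ?_ ?_)
    · refine ENNReal.ofReal_add_le.trans (add_le_add ?_ ?_)
      · rw [ENNReal.ofReal_mul hs2]
      · rw [ENNReal.ofReal_mul hs3]
    · refine ENNReal.ofReal_add_le.trans (add_le_add ?_ ?_)
      · rw [ENNReal.ofReal_mul hs2]
      · rw [ENNReal.ofReal_mul hs3]
  · rw [ENNReal.ofReal_mul hγ2]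
    exact mul_le_mul_right (kc_sum _ _) _

theorem kc_add {α : Type} [MeasurableSpace α] {μ : Measure α} {f g : α → ENNReal}
    (hf : Measurable f) : ∫⁻ a, (f a + g a) ∂μ = ∫⁻ a, f a ∂μ + ∫⁻ a, g a ∂μ :=
  lintegral_add_left hf _

theorem kc_lin {α : Type} [MeasurableSpace α] {μ : Measure α} {f1 f2 f3 f4 f5 : α → ENNReal}
    (c1 c2 c3 : ENNReal) (h1 : Measurable f1) (h2 : Measurable f2) (h3 : Measurable f3)
    (h4 : Measurable f4) (h5 : Measurable f5) :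
    ∫⁻ a, ((c1 * f1 a + c2 * f2 a) + (c1 * f3 a + c2 * f4 a) + c3 * f5 a) ∂μ =
      (c1 * ∫⁻ a, f1 a ∂μ + c2 * ∫⁻ a, f2 a ∂μ) + (c1 * ∫⁻ a, f3 a ∂μ + c2 * ∫⁻ a, f4 a ∂μ) +
        c3 * ∫⁻ a, f5 a ∂μ := by
  have k1 : Measurable fun a => c1 * f1 a := h1.const_mul c1
  have k2 : Measurable fun a => c2 * f2 a := h2.const_mul c2
  have k3 : Measurable fun a => c1 * f3 a := h3.const_mul c1
  have k4 : Measurable fun a => c2 * f4 a := h4.const_mul c2
  have k12 : Measurable fun a => c1 * f1 a + c2 * f2 a := k1.add k2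
  have k34 : Measurable fun a => c1 * f3 a + c2 * f4 a := k3.add k4
  have k14 : Measurable fun a => (c1 * f1 a + c2 * f2 a) + (c1 * f3 a + c2 * f4 a) := k12.add k34
  rw [kc_add k14, kc_add k12, kc_add k1, kc_add k3, lintegral_const_mul _ h1,
    lintegral_const_mul _ h2, lintegral_const_mul _ h3, lintegral_const_mul _ h4,
    lintegral_const_mul _ h5]

/-- K2, integrated -/
theorem FT_int (n : ℕ) [NeZero n] (T : Finset (Od n)) (g : Ev n → ℝ) {η : Od n → ℝ} {s γ : ℝ}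
    (hT : ∀ v ∈ T, ∀ i j, g (cn n v i) = g (cn n v j))
    (hη : ∀ v, v ∉ T → osc (loc (cn n) g v) ≤ η v) (hs : 0 < s) (hγ : 0 ≤ γ)
    (hg : g (dg n n) - g (dg n 0) = γ) :
    ENNReal.ofReal (2 * γ) * ∫⁻ a, ENNReal.ofReal (FT n T a) ∂bs (pp n) ≤
      ENNReal.ofReal s *
          ∫⁻ a, ENNReal.ofReal ((a (dg n n) - a (dg n 0)) ^ 2 * FT n T a) ∂bs (pp n) +
        ENNReal.ofReal (1 / s) * ∫⁻ a, ENNReal.ofReal (FT n T a) ∂bs (pp n) +
        ENNReal.ofReal (2 * γ) * ∑ v ∈ Finset.univ \ T,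
          ∫⁻ a, ENNReal.ofReal (er (η v) (loc (cn n) a v) * Fv n T v a) ∂bs (pp n) := by
  obtain ⟨g', hg'⟩ : ∃ g' : Ev n → ℝ, g' = fun y => g y - g (pp n) := ⟨_, rfl⟩
  have hgg : ∀ y, g y = g' y + g (pp n) := fun y => by rw [hg']; ring
  have hp : g' (pp n) = 0 := by rw [hg']; exact sub_self _
  have hp2 : (-g') (pp n) = 0 := by rw [Pi.neg_apply, hp, neg_zero]
  have hm := FT_meas n T (cc n (dg n 0) 0 0)
  have hmF : Measurable (fun a : Ev n → ℝ => ENNReal.ofReal (FT n T a)) :=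
    ENNReal.measurable_ofReal.comp hm.1
  have hmd : Measurable (fun a : Ev n → ℝ => a (dg n n) - a (dg n 0)) :=
    (measurable_pi_apply (dg n n)).sub (measurable_pi_apply (dg n 0))
  have hmX : Measurable (fun a : Ev n → ℝ =>
      ENNReal.ofReal ((a (dg n n) - a (dg n 0)) ^ 2 * FT n T a)) :=
    ENNReal.measurable_ofReal.comp ((hmd.pow_const 2).mul hm.1)
  have hmE : ∀ v : Od n, Measurable (fun a : Ev n → ℝ =>
      ENNReal.ofReal (er (η v) (loc (cn n) a v) * Fv n T v a)) := by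
    intro v
    refine ENNReal.measurable_ofReal.comp (Measurable.mul ?_ (FT_meas n T v).2.1)
    have hl : Measurable (fun a : Ev n → ℝ => loc (cn n) a v) :=
      measurable_pi_lambda _ fun i => measurable_pi_apply _
    exact (w12_meas.2.2.2 (η v)).comp hl
  have s1 := bs_shift (p := pp n) hp
  have s2 := bs_shift (p := pp n) hp2
  have i1 : ∫⁻ a, ENNReal.ofReal (((a + g') (dg n n) - (a + g') (dg n 0)) ^ 2 *
      FT n T (a + g')) ∂bs (pp n) =
      ∫⁻ a, ENNReal.ofReal ((a (dg n n) - a (dg n 0)) ^ 2 * FT n T a) ∂bs (pp n) :=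
    s1.lintegral_comp hmX
  have i2 : ∫⁻ a, ENNReal.ofReal (((a + -g') (dg n n) - (a + -g') (dg n 0)) ^ 2 *
      FT n T (a + -g')) ∂bs (pp n) =
      ∫⁻ a, ENNReal.ofReal ((a (dg n n) - a (dg n 0)) ^ 2 * FT n T a) ∂bs (pp n) :=
    s2.lintegral_comp hmX
  have i3 : ∫⁻ a, ENNReal.ofReal (FT n T (a + g')) ∂bs (pp n) =
      ∫⁻ a, ENNReal.ofReal (FT n T a) ∂bs (pp n) := s1.lintegral_comp hmF
  have i4 : ∫⁻ a, ENNReal.ofReal (FT n T (a + -g')) ∂bs (pp n) =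
      ∫⁻ a, ENNReal.ofReal (FT n T a) ∂bs (pp n) := s2.lintegral_comp hmF
  have m1 : Measurable (fun a : Ev n → ℝ => ENNReal.ofReal (((a + g') (dg n n) -
      (a + g') (dg n 0)) ^ 2 * FT n T (a + g'))) := hmX.comp s1.measurable
  have m2 : Measurable (fun a : Ev n → ℝ => ENNReal.ofReal (((a + -g') (dg n n) -
      (a + -g') (dg n 0)) ^ 2 * FT n T (a + -g'))) := hmX.comp s2.measurable
  have m3 : Measurable (fun a : Ev n → ℝ => ENNReal.ofReal (FT n T (a + g'))) :=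
    hmF.comp s1.measurable
  have m4 : Measurable (fun a : Ev n → ℝ => ENNReal.ofReal (FT n T (a + -g'))) :=
    hmF.comp s2.measurable
  have h1 : ENNReal.ofReal (2 * γ) * ∫⁻ a, ENNReal.ofReal (FT n T a) ∂bs (pp n) ≤
      ∫⁻ a, ((ENNReal.ofReal (s / 2) * ENNReal.ofReal (((a + g') (dg n n) -
          (a + g') (dg n 0)) ^ 2 * FT n T (a + g')) +
        ENNReal.ofReal (1 / (2 * s)) * ENNReal.ofReal (FT n T (a + -g'))) +
      (ENNReal.ofReal (s / 2) * ENNReal.ofReal (((a + -g') (dg n n) -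
          (a + -g') (dg n 0)) ^ 2 * FT n T (a + -g')) +
        ENNReal.ofReal (1 / (2 * s)) * ENNReal.ofReal (FT n T (a + g'))) +
      ENNReal.ofReal (2 * γ) * ∑ v ∈ Finset.univ \ T,
        ENNReal.ofReal (er (η v) (loc (cn n) a v) * Fv n T v a)) ∂bs (pp n) := by
    rw [← lintegral_const_mul _ hmF]
    exact lintegral_mono fun a => kc_point n T g g' (g (pp n)) hgg hT hη hs hγ hg a
  refine h1.trans (le_of_eq ?_)
  rw [kc_lin _ _ _ m1 m4 m2 m3 (Finset.measurable_sum _ fun v _ => hmE v),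
    lintegral_finsetSum _ (fun v _ => hmE v), i1, i2, i3, i4]
  have e1 : ENNReal.ofReal s = ENNReal.ofReal (s / 2) + ENNReal.ofReal (s / 2) := by
    rw [← ENNReal.ofReal_add (by positivity) (by positivity), add_halves]
  have e2 : ENNReal.ofReal (1 / s) = ENNReal.ofReal (1 / (2 * s)) + ENNReal.ofReal (1 / (2 * s)) := by
    rw [← ENNReal.ofReal_add (by positivity) (by positivity)]
    congr 1
    field_simp
    norm_num
  rw [e1, e2]
  ring

end HKK
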