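import Mathlib
import Pool.Agent.Lib_helper69.HKK.Ifc

set_option autoImplicit false

namespace HKK

open MeasureTheory QG HK HKC

/-- the number of the cells of a chain and the level -/
theorem chn_card {n : ℕ} [NeZero n] {M : ℕ} {y y' : Ev n} {S : Finset (Od n)}
    (h : Chn n M y y' S) : S.card = M ∧ lev n y ≤ lev n y' + M := by
  induction h with
  | nil y => simp
  | @cons M u y' S i j hc hu ih =>
    refine ⟨by rw [Finset.card_insert_of_notMem hu, ih.1], ?_⟩
    have h1 := QG.lv_adj n (dg n 0) u i j
    have h2 := ih.2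
    unfold lev at h2 ⊢
    omega

/-- cut a chain at a cell -/
theorem ki_cut {n : ℕ} [NeZero n] {M : ℕ} {y y' : Ev n} {S : Finset (Od n)} (v : Od n)
    (h : Chn n M y y' S) : v ∈ S → ∃ (M' : ℕ) (j : Fin 4) (S' : Finset (Od n)),
      Chn n M' (cn n v j) y' S' ∧ v ∉ S' ∧ S' ⊆ S := by
  induction h with
  | nil y => intro hv; exact absurd hv (Finset.notMem_empty _)
  | @cons M u y' S i j hc hu ih =>
    intro hv
    by_cases hvu : v = u
    · subst hvu
      exact ⟨M, j, S, hc, hu, Finset.subset_insert _ _⟩
    · obtain ⟨M', j', S', h1, h2, h3⟩ := ih (Finset.mem_of_mem_insert_of_ne hv hvu)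
      exact ⟨M', j', S', h1, h2, h3.trans (Finset.subset_insert _ _)⟩

/-- the points of a cluster are joined by chains -/
theorem chn_of {n : ℕ} [NeZero n] {T : Finset (Od n)} {y y' : Ev n}
    (h : Relation.ReflTransGen (Rc n T) y y') : ∃ (M : ℕ) (S : Finset (Od n)), S ⊆ T ∧
    Chn n M y y' S := by
  induction h using Relation.ReflTransGen.head_induction_on with
  | refl => exact ⟨0, ∅, Finset.empty_subset _, Chn.nil y'⟩
  | head h1 _ ih =>
    obtain ⟨v, hv, i, j, rfl, rfl⟩ := h1
    obtain ⟨M, S, hS, hc⟩ := ih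
    by_cases hvS : v ∈ S
    · obtain ⟨M', j', S', h1, h2, h3⟩ := ki_cut v hc hvS
      exact ⟨M' + 1, insert v S', Finset.insert_subset hv (h3.trans hS), Chn.cons i j' h1 h2⟩
    · exact ⟨M + 1, insert v S, Finset.insert_subset hv hS, Chn.cons i j hc hvS⟩

/-- the cell with the `i`-th corner `y` -/
def ki_u {n : ℕ} (y : Ev n) (i : Fin 4) : Od n := ⟨y.1 - dir n i, by
  have h := par_add n (y.1 - dir n i) (dir n i)
  rw [sub_add_cancel, y.2, par_dir] at h
  have h2 : par n (y.1 - dir n i) = -1 := eq_neg_of_add_eq_zero_left h.symm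
  rw [h2]
  decide⟩

theorem ki_u_eq {n : ℕ} (u : Od n) (i : Fin 4) : ki_u (cn n u i) i = u := by
  apply Subtype.ext
  simp [ki_u, cn]

open Classical in
/-- the number of the chains -/
theorem chn_count (n : ℕ) [NeZero n] (M : ℕ) (y : Ev n) :
    (Finset.univ.filter fun S : Finset (Od n) => ∃ y', Chn n M y y' S).card ≤ 16 ^ M := by
  induction M generalizing y with
  | zero =>
    have : (Finset.univ.filter fun S : Finset (Od n) => ∃ y', Chn n 0 y y' S) ⊆ {∅} := by
      intro S hS
      obtain ⟨y', hc⟩ := (Finset.mem_filter.1 hS).2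
      cases hc
      exact Finset.mem_singleton_self _
    exact (Finset.card_le_card this).trans (by simp)
  | succ M ih =>
    have hsub : (Finset.univ.filter fun S : Finset (Od n) => ∃ y', Chn n (M + 1) y y' S) ⊆
        (Finset.univ : Finset (Fin 4 × Fin 4)).biUnion fun p =>
          (Finset.univ.filter fun S : Finset (Od n) =>
            ∃ y', Chn n M (cn n (ki_u y p.1) p.2) y' S).image (insert (ki_u y p.1)) := by
      intro S hS
      obtain ⟨y', hc⟩ := (Finset.mem_filter.1 hS).2
      cases hc with
      | @cons _ u _ S' i j h1 h2 =>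
        rw [Finset.mem_biUnion]
        refine ⟨(i, j), Finset.mem_univ _, Finset.mem_image.2 ⟨S', ?_, ?_⟩⟩
        · rw [Finset.mem_filter]
          refine ⟨Finset.mem_univ _, y', ?_⟩
          rw [ki_u_eq]
          exact h1
        · simp only [ki_u_eq]
    refine (Finset.card_le_card hsub).trans ?_
    refine (Finset.card_biUnion_le_card_mul _ _ (16 ^ M) ?_).trans ?_
    · intro p _
      exact Finset.card_image_le.trans (ih _)
    · rw [Finset.card_univ, Fintype.card_prod, Fintype.card_fin, pow_succ]
      apply le_of_eq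
      ring

end HKK
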