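import Mathlib
import Pool.Agent.Lib_helper69.HKK.Ifc
import Pool.Agent.Lib_helper69.HKK.W.ki

set_option autoImplicit false

namespace HKK

open MeasureTheory QG HK HKC

theorem kj_fin (n : ℕ) [NeZero n] (T : Finset (Od n)) (b : ℝ) (y : Ev n) :
    {r | ∃ y', Relation.ReflTransGen (Rc n T) y y' ∧ r = gg n b y'}.Finite :=
  (Set.finite_range (gg n b)).subset (by
    rintro r ⟨y', -, rfl⟩
    exact ⟨y', rfl⟩)

/-- the infimum is attained -/
theorem kj_att (n : ℕ) [NeZero n] (T : Finset (Od n)) (b : ℝ) (y : Ev n) :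
    ∃ y', Relation.ReflTransGen (Rc n T) y y' ∧ gT n T b y = gg n b y' := by
  have hne : {r | ∃ y', Relation.ReflTransGen (Rc n T) y y' ∧ r = gg n b y'}.Nonempty :=
    ⟨gg n b y, y, Relation.ReflTransGen.refl, rfl⟩
  obtain ⟨y', h1, h2⟩ := hne.csInf_mem (kj_fin n T b y)
  exact ⟨y', h1, h2⟩

theorem kj_le (n : ℕ) [NeZero n] (T : Finset (Od n)) (b : ℝ) (y : Ev n) :
    gT n T b y ≤ gg n b y :=
  csInf_le (kj_fin n T b y).bddBelow ⟨y, Relation.ReflTransGen.refl, rfl⟩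

/-- the modified wave is constant on the clusters -/
theorem gT_const (n : ℕ) [NeZero n] (T : Finset (Od n)) (b : ℝ) {v : Od n} (hv : v ∈ T)
    (i j : Fin 4) : gT n T b (cn n v i) = gT n T b (cn n v j) := by
  have key : ∀ i j : Fin 4, ∀ y', Relation.ReflTransGen (Rc n T) (cn n v j) y' →
      Relation.ReflTransGen (Rc n T) (cn n v i) y' := by
    intro i j y' h
    exact Relation.ReflTransGen.head ⟨v, hv, i, j, rfl, rfl⟩ h
  unfold gT
  congr 1
  ext r
  constructor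
  · rintro ⟨y', h, rfl⟩
    exact ⟨y', key j i y' h, rfl⟩
  · rintro ⟨y', h, rfl⟩
    exact ⟨y', key i j y' h, rfl⟩

/-- its oscillation in a cell -/
theorem gT_osc (n : ℕ) [NeZero n] (T : Finset (Od n)) {b : ℝ} (hb : 0 ≤ b) (v : Od n) :
    ∃ (M : ℕ) (S : Finset (Od n)) (i : Fin 4) (y' : Ev n), S ⊆ T ∧ Chn n M (cn n v i) y' S ∧
      0 ≤ osc (loc (cn n) (gT n T b) v) ∧ osc (loc (cn n) (gT n T b) v) ≤ et n b M v := by
  obtain ⟨i1, -, h1⟩ := Finset.exists_mem_eq_sup' Finset.univ_nonempty (loc (cn n) (gT n T b) v)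
  obtain ⟨i2, -, h2⟩ := Finset.exists_mem_eq_inf' Finset.univ_nonempty (loc (cn n) (gT n T b) v)
  obtain ⟨y', hy, hg⟩ := kj_att n T b (cn n v i2)
  obtain ⟨M, S, hS, hc⟩ := chn_of hy
  refine ⟨M, S, i2, y', hS, hc, ?_, ?_⟩
  · unfold osc
    rw [sub_nonneg]
    exact (Finset.inf'_le _ (Finset.mem_univ i1)).trans h1.symm.le
  · have hosc : osc (loc (cn n) (gT n T b) v) ≤ gg n b (cn n v i1) - gg n b y' := by
      unfold osc
      rw [h1, h2]
      have e1 : loc (cn n) (gT n T b) v i1 = gT n T b (cn n v i1) := rfl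
      have e2 : loc (cn n) (gT n T b) v i2 = gT n T b (cn n v i2) := rfl
      rw [e1, e2, hg]
      exact sub_le_sub_right (kj_le n T b _) _
    refine hosc.trans ?_
    have ha1 : lev n (cn n v i1) ≤ lev n (cn n v i2) + 1 := lv_adj n _ v i1 i2
    have ha2 : lev n (cn n v i2) ≤ lev n y' + M := (chn_card hc).2
    have ha3 : lev n (cn n v 0) ≤ lev n (cn n v i1) + 1 := lv_adj n _ v 0 i1
    unfold gg et
    rw [← mul_sub]
    refine mul_le_mul_of_nonneg_left ?_ hb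
    generalize lev n (cn n v i1) = a at *
    generalize lev n (cn n v i2) = a2 at *
    generalize lev n (cn n v 0) = a0 at *
    generalize lev n y' = c at *
    have hM : (0 : ℝ) ≤ M := Nat.cast_nonneg M
    have hc0 : (0 : ℝ) ≤ c := Nat.cast_nonneg c
    have ha0 : (0 : ℝ) ≤ a := Nat.cast_nonneg a
    have ha00 : (0 : ℝ) ≤ a0 := Nat.cast_nonneg a0
    have r1 : (a : ℝ) ≤ c + M + 1 := by exact_mod_cast (by omega : a ≤ c + M + 1)
    have r3 : (a0 : ℝ) ≤ a + 1 := by exact_mod_cast ha3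
    have hR : 0 ≤ 2 * (2 + (M : ℝ)) ^ 2 / (1 + (a0 : ℝ)) := by positivity
    rcases le_or_gt a c with hac | hac
    · have r4 : (a : ℝ) ≤ c := by exact_mod_cast hac
      have : Real.log (1 + (a : ℝ)) ≤ Real.log (1 + (c : ℝ)) :=
        Real.log_le_log (by linarith) (by linarith)
      linarith
    · have r4 : (c : ℝ) < a := by exact_mod_cast hac
      have l1 : Real.log (1 + (a : ℝ)) - Real.log (1 + (c : ℝ)) ≤
          (1 + (a : ℝ)) / (1 + (c : ℝ)) - 1 := by
        rw [← Real.log_div (by linarith) (by linarith)]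
        exact Real.log_le_sub_one_of_pos (by positivity)
      refine l1.trans ?_
      rw [div_sub_one (by linarith), div_le_div_iff₀ (by linarith) (by linarith)]
      have e1 : 1 + (a0 : ℝ) ≤ 2 * (1 + a) := by linarith
      have e2 : 1 + (a : ℝ) ≤ (1 + c) * (2 + M) := by nlinarith
      have e3 : 1 + (a : ℝ) - (1 + c) ≤ M + 1 := by linarith
      have e4 : 0 ≤ 1 + (a : ℝ) - (1 + c) := by linarith
      calc (1 + (a : ℝ) - (1 + c)) * (1 + a0) ≤ (M + 1) * (2 * (1 + a)) :=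
            mul_le_mul e3 e1 (by linarith) (by linarith)
        _ ≤ (M + 1) * (2 * ((1 + c) * (2 + M))) :=
            mul_le_mul_of_nonneg_left (by linarith) (by linarith)
        _ ≤ 2 * (2 + (M : ℝ)) ^ 2 * (1 + c) := by nlinarith [mul_nonneg hc0 hM]

theorem kj_gg (n : ℕ) [NeZero n] {b : ℝ} (hb : 0 ≤ b) (y : Ev n) : 0 ≤ gg n b y := by
  unfold gg
  exact mul_nonneg hb (Real.log_nonneg (by
    have : (0 : ℝ) ≤ lev n y := Nat.cast_nonneg _
    linarith))

/-- its value at `0` and its sign -/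
theorem gT_zero (n : ℕ) [NeZero n] (T : Finset (Od n)) {b : ℝ} (hb : 0 ≤ b) :
    gT n T b (dg n 0) = 0 ∧ ∀ y, 0 ≤ gT n T b y := by
  have h0 : ∀ y, 0 ≤ gT n T b y := by
    intro y
    obtain ⟨y', -, h⟩ := kj_att n T b y
    rw [h]
    exact kj_gg n hb y'
  refine ⟨le_antisymm ?_ (h0 _), h0⟩
  refine (kj_le n T b _).trans ?_
  have h1 : lev n (dg n 0) = 0 := (lv_tri n (dg n 0) (dg n 0) (dg n 0)).2.2
  unfold gg
  rw [h1]
  simp

/-- its value at `(n, n)` -/
theorem gT_far (n : ℕ) [NeZero n] (T : Finset (Od n)) {b : ℝ} (hb : 0 ≤ b)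
    (h : ∀ (M : ℕ) (S : Finset (Od n)) (y' : Ev n), S ⊆ T → Chn n M (dg n n) y' S → 2 * M ≤ n) :
    b * Real.log n / 2 ≤ gT n T b (dg n n) := by
  obtain ⟨y', hy, hg⟩ := kj_att n T b (dg n n)
  obtain ⟨M, S, hS, hc⟩ := chn_of hy
  have h1 := h M S y' hS hc
  have h2 := (chn_card hc).2
  have h3 : lev n (dg n n) = n := (lv_dg n).1
  rw [h3] at h2
  rw [hg]
  unfold gg
  have hn : (1 : ℝ) ≤ n := by exact_mod_cast Nat.one_le_iff_ne_zero.2 (NeZero.ne n)
  have r1 : (n : ℝ) ≤ 2 * lev n y' := by exact_mod_cast (by omega : n ≤ 2 * lev n y')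
  have r2 : (n : ℝ) ≤ (1 + (lev n y' : ℝ)) ^ 2 := by nlinarith
  have r3 : Real.log n ≤ 2 * Real.log (1 + (lev n y' : ℝ)) := by
    have := Real.log_le_log (by linarith) r2
    rwa [Real.log_pow, Nat.cast_ofNat] at this
  have := mul_le_mul_of_nonneg_left r3 hb
  linarith

end HKK
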