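import Mathlib
import Pool.Agent.Lib_helper69.HKK.Ifc
import Pool.Agent.Lib_helper69.HKK.W.ka

set_option autoImplicit false

namespace HKK

open MeasureTheory QG HK HKC

lemma kd_core {ι : Type*} [DecidableEq ι] (G S : Finset ι) (hS : S ⊆ G) (f g : ι → ℝ) :
    ∑ T ∈ G.powerset.filter (fun T => S ⊆ T), (∏ u ∈ G \ T, f u) * ∏ u ∈ T, g u =
      (∏ u ∈ S, g u) * ∏ u ∈ G \ S, (f u + g u) := by
  have h1 : ∏ u ∈ G \ S, (f u + g u) = ∏ u ∈ G \ S, (g u + f u) :=
    Finset.prod_congr rfl fun u _ => add_comm _ _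
  rw [h1, Finset.prod_add, Finset.mul_sum]
  refine Finset.sum_nbij' (fun T => T \ S) (fun t => S ∪ t) ?_ ?_ ?_ ?_ ?_
  · intro T hT
    rw [Finset.mem_filter, Finset.mem_powerset] at hT
    rw [Finset.mem_powerset]
    exact Finset.sdiff_subset_sdiff hT.1 (Finset.Subset.refl _)
  · intro t ht
    rw [Finset.mem_powerset] at ht
    rw [Finset.mem_filter, Finset.mem_powerset]
    exact ⟨Finset.union_subset hS (ht.trans Finset.sdiff_subset), Finset.subset_union_left⟩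
  · intro T hT
    rw [Finset.mem_filter] at hT
    exact Finset.union_sdiff_of_subset hT.2
  · intro t ht
    rw [Finset.mem_powerset] at ht
    ext x
    simp only [Finset.mem_sdiff, Finset.mem_union]
    constructor
    · rintro ⟨h1 | h1, h2⟩
      · exact absurd h1 h2
      · exact h1
    · intro h
      exact ⟨Or.inr h, (Finset.mem_sdiff.mp (ht h)).2⟩
  · intro T hT
    rw [Finset.mem_filter, Finset.mem_powerset] at hT
    have e1 : (G \ S) \ (T \ S) = G \ T := by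
      ext x
      simp only [Finset.mem_sdiff]
      constructor
      · rintro ⟨⟨h1, h2⟩, h3⟩
        exact ⟨h1, fun h4 => h3 ⟨h4, h2⟩⟩
      · rintro ⟨h1, h2⟩
        exact ⟨⟨h1, fun h3 => h2 (hT.2 h3)⟩, fun h3 => h2 h3.1⟩
    have e2 : ∏ u ∈ T, g u = (∏ u ∈ S, g u) * ∏ u ∈ T \ S, g u := by
      rw [mul_comm, Finset.prod_sdiff hT.2]
    rw [e1, e2]
    ring

lemma kd_le {ι : Type*} [DecidableEq ι] (G S S' : Finset ι) (hS : S ⊆ G) (h : S' ⊆ S)
    (g w : ι → ℝ) (z : ℝ) (hg : ∀ u, 0 ≤ g u) (hgz : ∀ u, g u ≤ z) (hgw : ∀ u, g u ≤ w u) :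
    (∏ u ∈ S, g u) * ∏ u ∈ G \ S, w u ≤ z ^ S'.card * ∏ u ∈ G \ S', w u := by
  have hw : ∀ u, 0 ≤ w u := fun u => (hg u).trans (hgw u)
  have e1 : ∏ u ∈ S, g u = (∏ u ∈ S \ S', g u) * ∏ u ∈ S', g u := (Finset.prod_sdiff h).symm
  have e2 : ∏ u ∈ G \ S', w u = (∏ u ∈ G \ S, w u) * ∏ u ∈ S \ S', w u := by
    rw [← Finset.prod_union]
    · congr 1
      ext x
      simp only [Finset.mem_sdiff, Finset.mem_union]
      constructor
      · rintro ⟨h1, h2⟩
        by_cases hx : x ∈ S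
        · exact Or.inr ⟨hx, h2⟩
        · exact Or.inl ⟨h1, hx⟩
      · rintro (⟨h1, h2⟩ | ⟨h1, h2⟩)
        · exact ⟨h1, fun h3 => h2 (h h3)⟩
        · exact ⟨hS h1, h2⟩
    · rw [Finset.disjoint_left]
      intro x hx hx'
      exact (Finset.mem_sdiff.mp hx).2 (Finset.mem_sdiff.mp hx').1
  have h1 : ∏ u ∈ S', g u ≤ z ^ S'.card := by
    calc ∏ u ∈ S', g u ≤ ∏ _u ∈ S', z := Finset.prod_le_prod (fun u _ => hg u) fun u _ => hgz u
      _ = z ^ S'.card := Finset.prod_const z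
  have h2 : ∏ u ∈ S \ S', g u ≤ ∏ u ∈ S \ S', w u :=
    Finset.prod_le_prod (fun u _ => hg u) fun u _ => hgw u
  have p1 : 0 ≤ ∏ u ∈ S', g u := Finset.prod_nonneg fun u _ => hg u
  have p2 : 0 ≤ ∏ u ∈ S \ S', g u := Finset.prod_nonneg fun u _ => hg u
  have p3 : 0 ≤ ∏ u ∈ G \ S, w u := Finset.prod_nonneg fun u _ => hw u
  have p4 : 0 ≤ ∏ u ∈ S \ S', w u := Finset.prod_nonneg fun u _ => hw u
  rw [e1, e2]
  calc (∏ u ∈ S \ S', g u) * (∏ u ∈ S', g u) * ∏ u ∈ G \ S, w u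
      ≤ (∏ u ∈ S \ S', w u) * z ^ S'.card * ∏ u ∈ G \ S, w u :=
        mul_le_mul_of_nonneg_right (mul_le_mul h2 h1 p1 p4) p3
    _ = _ := by ring

/-- the sum over the sets that contain `S` -/
theorem sum_FT (n : ℕ) [NeZero n] (S : Finset (Od n)) (a : Ev n → ℝ) :
    ∑ T ∈ Finset.univ.filter (fun T : Finset (Od n) => S ⊆ T), FT n T a =
      (∏ u ∈ S, w2 (loc (cn n) a u)) * ∏ u ∈ Finset.univ \ S, wh (loc (cn n) a u) := by
  have h := kd_core (Finset.univ : Finset (Od n)) S (Finset.subset_univ _)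
    (fun u => w1 (loc (cn n) a u)) (fun u => w2 (loc (cn n) a u))
  rw [Finset.powerset_univ] at h
  simp only [(w12 _).1] at h
  exact h

/-- the same without the cell `v` -/
theorem sum_Fv (n : ℕ) [NeZero n] (S : Finset (Od n)) {v : Od n} (hv : v ∉ S) (a : Ev n → ℝ) :
    ∑ T ∈ Finset.univ.filter (fun T : Finset (Od n) => S ⊆ T ∧ v ∉ T), Fv n T v a =
      (∏ u ∈ S, w2 (loc (cn n) a u)) * ∏ u ∈ Finset.univ \ insert v S, wh (loc (cn n) a u) := by
  have hS : S ⊆ (Finset.univ : Finset (Od n)).erase v := by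
    intro x hx
    rw [Finset.mem_erase]
    exact ⟨fun h => hv (h ▸ hx), Finset.mem_univ _⟩
  have h := kd_core ((Finset.univ : Finset (Od n)).erase v) S hS
    (fun u => w1 (loc (cn n) a u)) (fun u => w2 (loc (cn n) a u))
  simp only [(w12 _).1] at h
  have e1 : (Finset.univ : Finset (Od n)).erase v \ S = Finset.univ \ insert v S := by
    ext x
    simp only [Finset.mem_sdiff, Finset.mem_erase, Finset.mem_univ, Finset.mem_insert, true_and,
      and_true, not_or]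
  have e2 : ((Finset.univ : Finset (Od n)).erase v).powerset.filter (fun T => S ⊆ T) =
      Finset.univ.filter (fun T : Finset (Od n) => S ⊆ T ∧ v ∉ T) := by
    ext T
    simp only [Finset.mem_filter, Finset.mem_powerset, Finset.mem_univ, true_and]
    constructor
    · rintro ⟨h1, h2⟩
      exact ⟨h2, fun h3 => (Finset.mem_erase.mp (h1 h3)).1 rfl⟩
    · rintro ⟨h1, h2⟩
      refine ⟨fun x hx => Finset.mem_erase.mpr ⟨fun h3 => h2 (h3 ▸ hx), Finset.mem_univ _⟩, h1⟩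
  rw [e1, e2] at h
  rw [← h]
  refine Finset.sum_congr rfl fun T _ => ?_
  rw [Fv]
  congr 2
  ext x
  simp only [Finset.mem_sdiff, Finset.mem_erase, Finset.mem_univ, true_and, and_true]

/-- only the cells of a subset are used -/
theorem sum_FT_le (n : ℕ) [NeZero n] {S S' : Finset (Od n)} (h : S' ⊆ S) (a : Ev n → ℝ) :
    ∑ T ∈ Finset.univ.filter (fun T : Finset (Od n) => S ⊆ T), FT n T a ≤
      z0 ^ S'.card * ∏ u ∈ Finset.univ \ S', wh (loc (cn n) a u) := by
  rw [sum_FT]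
  exact kd_le _ S S' (Finset.subset_univ _) h _ _ z0 (fun u => (w12 _).2.2.1)
    (fun u => (w12 _).2.2.2.1) (fun u => (w12 _).2.2.2.2.1)

/-- the same without the cell `v` -/
theorem sum_Fv_le (n : ℕ) [NeZero n] {S S' : Finset (Od n)} (h : S' ⊆ S) {v : Od n} (hv : v ∉ S)
    (a : Ev n → ℝ) :
    ∑ T ∈ Finset.univ.filter (fun T : Finset (Od n) => S ⊆ T ∧ v ∉ T), Fv n T v a ≤
      z0 ^ S'.card * ∏ u ∈ Finset.univ \ insert v S', wh (loc (cn n) a u) := by
  rw [sum_Fv n S hv]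
  have hS : S ⊆ (Finset.univ : Finset (Od n)).erase v := by
    intro x hx
    rw [Finset.mem_erase]
    exact ⟨fun h => hv (h ▸ hx), Finset.mem_univ _⟩
  have e1 : ∀ S : Finset (Od n), (Finset.univ : Finset (Od n)).erase v \ S =
      Finset.univ \ insert v S := by
    intro S
    ext x
    simp only [Finset.mem_sdiff, Finset.mem_erase, Finset.mem_univ, Finset.mem_insert, true_and,
      and_true, not_or]
  rw [← e1, ← e1]
  exact kd_le _ S S' hS h _ _ z0 (fun u => (w12 _).2.2.1)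
    (fun u => (w12 _).2.2.2.1) (fun u => (w12 _).2.2.2.2.1)

end HKK
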