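import Mathlib
import Pool.Agent.Lib_helper69.HKK.Ifc

set_option autoImplicit false

namespace HKK

open MeasureTheory QG HK HKC

/-- the colour of a cell: the parity of its first coordinate -/
def ke_col (n : ℕ) (u : Od n) : ZMod 2 := ZMod.castHom (Dvd.intro n rfl) (ZMod 2) u.1.1

theorem ke_sep (n : ℕ) (u u' : Od n) (h : ke_col n u = ke_col n u') (a b : ℤ)
    (ha : |a| ≤ 1) (hb : |b| ≤ 1) (e : u.1 + of n a b = u'.1) : u = u' := by
  have h1 : ke_col n u' = ke_col n u + (a : ZMod 2) := by
    unfold ke_col
    rw [← e]
    simp [of]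
  rw [h] at h1
  have ha2 : (a : ZMod 2) = 0 := by
    have := add_eq_left.1 h1.symm
    exact this
  have hp : par n u'.1 = par n u.1 + (a : ZMod 2) + (b : ZMod 2) := by
    rw [← e, par_add, of, par_int]
    push_cast
    ring
  rw [u.2, u'.2, ha2, add_zero] at hp
  have hb2 : (b : ZMod 2) = 0 := add_eq_left.1 hp.symm
  have e1 : a = 0 := by
    have := (ZMod.intCast_zmod_eq_zero_iff_dvd a 2).1 ha2
    rw [abs_le] at ha
    omega
  have e2 : b = 0 := by
    have := (ZMod.intCast_zmod_eq_zero_iff_dvd b 2).1 hb2
    rw [abs_le] at hb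
    omega
  subst e1 e2
  have : of n 0 0 = 0 := by simp [of]
  rw [this, add_zero] at e
  exact Subtype.ext e

open Classical in
/-- at least half of the cells can be removed together with `v` -/
theorem ke_main (n : ℕ) [NeZero n] (S : Finset (Od n)) (v : Od n) :
    ∃ S' ⊆ S, Sep n S' ∧ (∀ u ∈ S', Apt n u v) ∧ S.card ≤ 2 * S'.card + 32 := by
  set B : Finset (Od n) := S.filter fun u => ¬ Apt n u v with hB
  have hBc : B.card ≤ 16 := by
    have hsub : B.image Subtype.val ⊆
        (Finset.univ : Finset (Fin 4 × Fin 4)).image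
          (fun p => v.1 + dir n p.2 - dir n p.1) := by
      intro x hx
      obtain ⟨u, hu, rfl⟩ := Finset.mem_image.1 hx
      have h2 := (Finset.mem_filter.1 hu).2
      unfold Apt at h2
      push Not at h2
      obtain ⟨i, j, hij⟩ := h2
      refine Finset.mem_image.2 ⟨(i, j), Finset.mem_univ _, ?_⟩
      have := congrArg Subtype.val hij
      simp only [cn] at this
      rw [← this]
      abel
    calc B.card = (B.image Subtype.val).card :=
          (Finset.card_image_of_injective _ Subtype.val_injective).symm
      _ ≤ _ := Finset.card_le_card hsub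
      _ ≤ _ := Finset.card_image_le
      _ = 16 := by simp
  set G : Finset (Od n) := S.filter fun u => Apt n u v with hG
  have hcard : G.card + B.card = S.card := Finset.card_filter_add_card_filter_not _
  have hcol : (G.filter fun u => ke_col n u = 0).card +
      (G.filter fun u => ¬ ke_col n u = 0).card = G.card := Finset.card_filter_add_card_filter_not _
  have h01 : ∀ x : ZMod 2, ¬ x = 0 → x = 1 := by decide
  rcases le_total (G.filter fun u => ke_col n u = 0).card
    (G.filter fun u => ¬ ke_col n u = 0).card with h | h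
  · refine ⟨G.filter fun u => ¬ ke_col n u = 0, ?_, ?_, ?_, ?_⟩
    · exact (Finset.filter_subset _ _).trans (Finset.filter_subset _ _)
    · intro u hu u' hu' a b ha hb e
      exact ke_sep n u u' ((h01 _ (Finset.mem_filter.1 hu).2).trans
        (h01 _ (Finset.mem_filter.1 hu').2).symm) a b ha hb e
    · intro u hu
      exact (Finset.mem_filter.1 (Finset.mem_filter.1 hu).1).2
    · omega
  · refine ⟨G.filter fun u => ke_col n u = 0, ?_, ?_, ?_, ?_⟩
    · exact (Finset.filter_subset _ _).trans (Finset.filter_subset _ _)
    · intro u hu u' hu' a b ha hb e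
      exact ke_sep n u u' ((Finset.mem_filter.1 hu).2.trans
        (Finset.mem_filter.1 hu').2.symm) a b ha hb e
    · intro u hu
      exact (Finset.mem_filter.1 (Finset.mem_filter.1 hu).1).2
    · omega

/-- at least half of the cells can be removed together with `v` -/
theorem sep_exists (n : ℕ) [NeZero n] (S : Finset (Od n)) (v : Od n) :
    ∃ S' ⊆ S, Sep n S' ∧ (∀ u ∈ S', Apt n u v) ∧ S.card ≤ 2 * S'.card + 32 :=
  ke_main n S v

end HKK
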