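import Mathlib
import Pool.Agent.Lib_helper69.HKK.Ifc

set_option autoImplicit false

namespace HKK

open MeasureTheory QG HK HKC

theorem kf_par (n : ℕ) (x y : Tor n) (a b : ℤ) (h : x + of n a b = y) :
    par n y = par n x + ((a + b : ℤ) : ZMod 2) := by
  rw [← h, par_add, of, par_int]

theorem kf_even {a b : ℤ} (h : ((a + b : ℤ) : ZMod 2) = 0) : (a + b) % 2 = 0 := by
  have := (ZMod.intCast_zmod_eq_zero_iff_dvd (a + b) 2).1 h
  omega

theorem kf_odd {a b : ℤ} (h : ((a + b : ℤ) : ZMod 2) = 1) : (a + b) % 2 = 1 := by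
  by_contra h2
  have h3 : (a + b) % 2 = 0 := by omega
  have h4 : ((a + b : ℤ) : ZMod 2) = 0 :=
    (ZMod.intCast_zmod_eq_zero_iff_dvd (a + b) 2).2 (by exact_mod_cast Int.dvd_of_emod_eq_zero h3)
  rw [h4] at h
  exact absurd h (by decide)

theorem kf_apt (n : ℕ) {u v : Od n} (h : Apt n u v) {a b : ℤ} (ha : |a| ≤ 1) (hb : |b| ≤ 1)
    (e : v.1 + of n a b = u.1) : False := by
  have hp := kf_par n _ _ a b e
  rw [u.2, v.2] at hp
  have h2 := kf_even (add_eq_left.1 hp.symm)
  rw [abs_le] at ha hb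
  have key : ∀ i j : Fin 4, of n a b + dir n i = dir n j → False := by
    intro i j hij
    apply h i j
    apply Subtype.ext
    simp only [cn]
    rw [← e, add_assoc, hij]
  have c : (a = 0 ∧ b = 0) ∨ (a = 1 ∧ b = 1) ∨ (a = 1 ∧ b = -1) ∨ (a = -1 ∧ b = 1) ∨
      (a = -1 ∧ b = -1) := by omega
  rcases c with ⟨rfl, rfl⟩ | ⟨rfl, rfl⟩ | ⟨rfl, rfl⟩ | ⟨rfl, rfl⟩ | ⟨rfl, rfl⟩
  · exact key 0 0 (by simp [of])
  · exact key 3 1 (by simp [of, dir])
  · exact key 2 1 (by simp [of, dir])
  · exact key 3 0 (by simp [of, dir])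
  · exact key 2 0 (by simp [of, dir])

theorem kf_apt_y (n : ℕ) {u v : Od n} (h : Apt n u v) (k : Fin 4) {a b : ℤ} (ha : |a| ≤ 1)
    (hb : |b| ≤ 1) (e : (cn n v k).1 + of n a b = u.1) : False := by
  have hp := kf_par n _ _ a b e
  rw [u.2, (cn n v k).2, zero_add] at hp
  have h2 := kf_odd hp.symm
  rw [abs_le] at ha hb
  have key : ∀ i : Fin 4, of n a b + dir n i = 0 → False := by
    intro i hi
    apply h i k
    apply Subtype.ext
    have : (cn n u i).1 = u.1 + dir n i := rfl
    rw [this, ← e, add_assoc, hi, add_zero]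
  have c : (a = 0 ∧ b = 1) ∨ (a = 0 ∧ b = -1) ∨ (a = 1 ∧ b = 0) ∨ (a = -1 ∧ b = 0) := by omega
  rcases c with ⟨rfl, rfl⟩ | ⟨rfl, rfl⟩ | ⟨rfl, rfl⟩ | ⟨rfl, rfl⟩
  · exact key 3 (by simp [of, dir])
  · exact key 2 (by simp [of, dir])
  · exact key 0 (by simp [of, dir])
  · exact key 1 (by simp [of, dir])

theorem kf_list (n : ℕ) (l : List (Od n)) (hn : l.Nodup)
    (h : ∀ u ∈ l, ∀ u' ∈ l, ∀ a b : ℤ, |a| ≤ 1 → |b| ≤ 1 → u.1 + of n a b = u'.1 → u = u') :
    RmL n (l.map Subtype.val) := by
  induction l with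
  | nil => trivial
  | cons x l ih =>
    rw [List.nodup_cons] at hn
    refine ⟨⟨?_, 0, ?_⟩, ih hn.2 fun u hu u' hu' => h u (List.mem_cons_of_mem _ hu) u'
      (List.mem_cons_of_mem _ hu')⟩
    · intro hx
      rw [List.mem_toFinset, List.mem_map] at hx
      obtain ⟨y, hy, e⟩ := hx
      rw [Subtype.ext e] at hy
      exact hn.1 hy
    · intro a b ha hb hx
      rw [List.mem_toFinset, List.mem_map] at hx
      obtain ⟨y, hy, e⟩ := hx
      have := h x List.mem_cons_self y (List.mem_cons_of_mem _ hy) a b ha hb e.symm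
      rw [← this] at hy
      exact absurd hy hn.1

theorem kf_fin (n : ℕ) (S : Finset (Od n)) :
    (S.toList.map Subtype.val).toFinset = S.image Subtype.val := by
  ext x
  simp

theorem kf_p (n : ℕ) (p : Ev n) (u : Od n) : p.1 ≠ u.1 := by
  intro h
  have := p.2
  rw [h, u.2] at this
  exact absurd this (by decide)

/-- removal of separated cells -/
theorem rm_sep (n : ℕ) [NeZero n] (hn : 2 ≤ n) (S : Finset (Od n)) (hS : Sep n S) :
    vol n (pp n).1 (S.image Subtype.val) Set.univ ≤
      512 ^ S.card * vol n (pp n).1 ∅ Set.univ := by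
  have h := rm_list n hn (p := (pp n).1) (S.toList.map Subtype.val)
    (kf_list n _ S.nodup_toList fun u hu u' hu' => hS u (Finset.mem_toList.1 hu) u'
      (Finset.mem_toList.1 hu')) (by
    intro h
    obtain ⟨u, _, e⟩ := List.mem_map.1 h
    exact kf_p n (pp n) u e.symm)
  rw [kf_fin, List.length_map, Finset.length_toList] at h
  exact h

theorem kf_v (n : ℕ) (S : Finset (Od n)) (hS : Sep n S) (v : Od n)
    (hv : ∀ u ∈ S, Apt n u v) : RmL n (v.1 :: S.toList.map Subtype.val) := by
  refine ⟨⟨?_, 0, ?_⟩, kf_list n _ S.nodup_toList fun u hu u' hu' => hS u (Finset.mem_toList.1 hu)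
    u' (Finset.mem_toList.1 hu')⟩
  · rw [kf_fin]
    intro h
    obtain ⟨u, hu, e⟩ := Finset.mem_image.1 h
    have := hv u hu
    rw [Subtype.ext e] at this
    exact this 0 0 rfl
  · rw [kf_fin]
    intro a b ha hb h
    obtain ⟨u, hu, e⟩ := Finset.mem_image.1 h
    exact (kf_apt n (hv u hu) ha hb e.symm).elim

/-- together with the cell `v` -/
theorem rm_sep_v (n : ℕ) [NeZero n] (hn : 2 ≤ n) (S : Finset (Od n)) (hS : Sep n S) (v : Od n)
    (hv : ∀ u ∈ S, Apt n u v) :
    vol n (pp n).1 ((insert v S).image Subtype.val) Set.univ ≤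
      512 ^ (S.card + 1) * vol n (pp n).1 ∅ Set.univ := by
  have h := rm_list n hn (p := (pp n).1) (v.1 :: S.toList.map Subtype.val) (kf_v n S hS v hv) (by
    intro h
    rcases List.mem_cons.1 h with h | h
    · exact kf_p n (pp n) v h
    · obtain ⟨u, _, e⟩ := List.mem_map.1 h
      exact kf_p n (pp n) u e.symm)
  rw [List.toFinset_cons, kf_fin, List.length_cons, List.length_map, Finset.length_toList] at h
  rw [Finset.image_insert]
  exact h

/-- together with the cell `v` and one of its corners -/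
theorem rm_sep_y (n : ℕ) [NeZero n] (hn : 2 ≤ n) (S : Finset (Od n)) (hS : Sep n S) (v : Od n)
    (hv : ∀ u ∈ S, Apt n u v) (i : Fin 4) (hi : cn n v i ≠ pp n) :
    vol n (pp n).1 (insert (cn n v i).1 ((insert v S).image Subtype.val)) Set.univ ≤
      512 ^ (S.card + 2) * vol n (pp n).1 ∅ Set.univ := by
  have hrm : RmL n ((cn n v i).1 :: v.1 :: S.toList.map Subtype.val) := by
    refine ⟨⟨?_, op i, ?_⟩, kf_v n S hS v hv⟩
    · rw [List.toFinset_cons, kf_fin]
      intro h
      rcases Finset.mem_insert.1 h with h | h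
      · exact kf_p n _ v h
      · obtain ⟨u, _, e⟩ := Finset.mem_image.1 h
        exact kf_p n _ u e.symm
    · rw [List.toFinset_cons, kf_fin]
      intro a b ha hb h
      rcases Finset.mem_insert.1 h with h | h
      · have e : (cn n v i).1 = v.1 + dir n i := rfl
        rw [e, add_assoc, add_eq_left] at h
        have h2 : of n a b = -dir n i := (neg_eq_of_add_eq_zero_right h).symm
        rw [h2]
        fin_cases i <;> simp [dir, op]
      · obtain ⟨u, hu, e⟩ := Finset.mem_image.1 h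
        exact (kf_apt_y n (hv u hu) i ha hb e.symm).elim
  have h := rm_list n hn (p := (pp n).1) _ hrm (by
    intro h
    rcases List.mem_cons.1 h with h | h
    · exact hi (Subtype.ext h.symm)
    rcases List.mem_cons.1 h with h | h
    · exact kf_p n (pp n) v h
    · obtain ⟨u, _, e⟩ := List.mem_map.1 h
      exact kf_p n (pp n) u e.symm)
  rw [List.toFinset_cons, List.toFinset_cons, kf_fin, List.length_cons, List.length_cons,
    List.length_map, Finset.length_toList] at h
  rw [Finset.image_insert]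
  exact h

end HKK
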