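import Mathlib
import Pool.Agent.Lib_helper69.HKK.Ifc
import Pool.Agent.Lib_helper69.HKK.W.ka
import Pool.Agent.Lib_helper69.HKK.W.kb
import Pool.Agent.Lib_helper69.HKK.W.kd
import Pool.Agent.Lib_helper69.HKK.W.ke
import Pool.Agent.Lib_helper69.HKK.W.kf

set_option autoImplicit false

namespace HKK

open MeasureTheory QG HK HKC

theorem kg_wh (t : Fin 4 → ℝ) : 0 ≤ wh t := le_max_left _ _

theorem kg_z0 : 0 ≤ z0 := by unfold z0; positivity

theorem kg_num {k c : ℕ} (h : c ≤ 2 * k + 32) :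
    z0 ^ k * 512 ^ k ≤ 64 ^ 32 * (1 / 64) ^ c := by
  have e1 : z0 ^ k * 512 ^ k = (1 / 64) ^ (2 * k) := by
    rw [← mul_pow, pow_mul]
    congr 1
    unfold z0
    norm_num
  have e2 : ((1 : ℝ) / 64) ^ (2 * k) = 64 ^ 32 * (1 / 64) ^ (2 * k + 32) := by
    rw [pow_add]
    have e3 : (64 : ℝ) ^ 32 * (1 / 64) ^ 32 = 1 := by rw [← mul_pow]; norm_num
    calc ((1 : ℝ) / 64) ^ (2 * k) = (1 / 64) ^ (2 * k) * (64 ^ 32 * (1 / 64) ^ 32) := by
          rw [e3, mul_one]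
      _ = 64 ^ 32 * ((1 / 64) ^ (2 * k) * (1 / 64) ^ 32) := by ring
  rw [e1, e2]
  refine mul_le_mul_of_nonneg_left ?_ (by positivity)
  exact pow_le_pow_of_le_one (by norm_num) (by norm_num) h

theorem kg_e {x : ℝ} (hx : 0 ≤ x) (m : ℕ) (Z : ENNReal) :
    ENNReal.ofReal x * ((512 : ENNReal) ^ m * Z) = ENNReal.ofReal (x * 512 ^ m) * Z := by
  have e : (512 : ENNReal) ^ m = ENNReal.ofReal (512 ^ m) := by
    rw [ENNReal.ofReal_pow (by norm_num)]
    congr 1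
    exact (ENNReal.ofReal_ofNat 512).symm
  rw [e, ← mul_assoc, ENNReal.ofReal_mul hx]

/-- the integral of the product of the weights -/
theorem kg_prod (n : ℕ) [NeZero n] (U : Finset (Od n)) {z : ℝ} (hz : 0 ≤ z) (a : Ev n → ℝ) :
    ENNReal.ofReal (z * ∏ u ∈ U, wh (loc (cn n) a u)) =
      ENNReal.ofReal z * ∏ u ∈ U, ENNReal.ofReal (wh (loc (cn n) a u)) := by
  rw [ENNReal.ofReal_mul hz, ENNReal.ofReal_prod_of_nonneg fun _ _ => kg_wh _]

theorem kg_main (n : ℕ) [NeZero n] {S S' : Finset (Od n)} (h : S' ⊆ S) {v : Od n} (hv : v ∉ S)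
    {E : Set (Ev n → ℝ)} (hE : MeasurableSet E) :
    ∑ T ∈ Finset.univ.filter (fun T : Finset (Od n) => S ⊆ T ∧ v ∉ T),
        ∫⁻ a in E, ENNReal.ofReal (Fv n T v a) ∂bs (pp n) ≤
      ENNReal.ofReal (z0 ^ S'.card) * vol n (pp n).1 ((insert v S').image Subtype.val)
        {φ | (fun y : Ev n => φ y.1) ∈ E} := by
  have hz : 0 ≤ z0 ^ S'.card := pow_nonneg kg_z0 _
  rw [vol_even n (pp n) (insert v S') hE,
    ← lintegral_finsetSum _ (fun T _ => ((FT_meas n T v).2.1).ennreal_ofReal),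
    ← lintegral_const_mul' _ _ ENNReal.ofReal_ne_top]
  refine lintegral_mono fun a => ?_
  rw [← ENNReal.ofReal_sum_of_nonneg (fun T _ => ((FT_meas n T v).2.2 a).2),
    ← kg_prod n _ hz]
  exact ENNReal.ofReal_le_ofReal (sum_Fv_le n h hv a)

theorem kg_par (n : ℕ) : par n (dir n 0) = 1 := par_dir n 0

theorem kg_mainT (n : ℕ) [NeZero n] {S S' : Finset (Od n)} (h : S' ⊆ S) :
    ∑ T ∈ Finset.univ.filter (fun T : Finset (Od n) => S ⊆ T),
        ∫⁻ a, ENNReal.ofReal (FT n T a) ∂bs (pp n) ≤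
      ENNReal.ofReal (z0 ^ S'.card) * vol n (pp n).1 (S'.image Subtype.val) Set.univ := by
  have hz : 0 ≤ z0 ^ S'.card := pow_nonneg kg_z0 _
  have e := vol_even n (pp n) S' (E := Set.univ) MeasurableSet.univ
  have e1 : ({φ | (fun y : Ev n => φ y.1) ∈ (Set.univ : Set (Ev n → ℝ))} : Set (Tor n → ℝ)) =
      Set.univ := by
    ext φ
    simp
  rw [e1, Measure.restrict_univ] at e
  rw [e, ← lintegral_finsetSum _ (fun T _ => ((FT_meas n T ⟨_, (kg_par n)⟩).1).ennreal_ofReal),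
    ← lintegral_const_mul' _ _ ENNReal.ofReal_ne_top]
  refine lintegral_mono fun a => ?_
  rw [← ENNReal.ofReal_sum_of_nonneg (fun T _ => ((FT_meas n T ⟨_, (kg_par n)⟩).2.2 a).1),
    ← kg_prod n _ hz]
  exact ENNReal.ofReal_le_ofReal (sum_FT_le n h a)

/-- the corners of a cell are different -/
theorem kg_cn (n : ℕ) (hn : 2 ≤ n) (v : Od n) {i j : Fin 4} (h : cn n v i = cn n v j) : i = j := by
  have h1 : dir n i = dir n j := add_left_cancel (congrArg Subtype.val h : v.1 + dir n i = v.1 + dir n j)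
  rw [dir_of, dir_of] at h1
  have hb : ∀ i j : Fin 4, |(dz i).1 - (dz j).1| < 4 ∧ |(dz i).2 - (dz j).2| < 4 := by decide
  have hn' : (4 : ℤ) ≤ 2 * (n : ℤ) := by
    have : (2 : ℤ) ≤ (n : ℤ) := by exact_mod_cast hn
    linarith
  obtain ⟨e1, e2⟩ := of_inj n (lt_of_lt_of_le (hb i j).1 hn') (lt_of_lt_of_le (hb i j).2 hn') h1
  have hd : ∀ i j : Fin 4, (dz i).1 = (dz j).1 → (dz i).2 = (dz j).2 → i = j := by decide
  exact hd i j e1 e2

theorem kg_notin (n : ℕ) (X : Finset (Od n)) (y : Ev n) : y.1 ∉ X.image Subtype.val := by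
  intro h
  obtain ⟨u, -, hu⟩ := Finset.mem_image.1 h
  have h1 : par n u.1 = 1 := u.2
  have h2 : par n y.1 = 0 := y.2
  rw [hu, h2] at h1
  exact absurd h1 (by decide)

/-- the volume with two close corners, the first one is not the pinned site -/
theorem kg_vol1 (n : ℕ) [NeZero n] (hn : 2 ≤ n) {S' : Finset (Od n)} (hS : Sep n S') {v : Od n}
    (hv : ∀ u ∈ S', Apt n u v) {i j : Fin 4} (hij : i ≠ j) (hi : cn n v i ≠ pp n) (r : ℝ) :
    vol n (pp n).1 ((insert v S').image Subtype.val)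
        {φ | |φ (cn n v i).1 - φ (cn n v j).1| ≤ r} ≤
      ENNReal.ofReal (2 * r) * (512 ^ (S'.card + 2) * vol n (pp n).1 ∅ Set.univ) := by
  refine (vol_near n (kg_notin n _ _) (fun h => hi (Subtype.ext h))
    (fun h => hij (kg_cn n hn v (Subtype.ext h))) r).trans ?_
  exact mul_le_mul_right (rm_sep_y n hn S' hS v hv i hi) _

theorem kg_vol2 (n : ℕ) [NeZero n] (hn : 2 ≤ n) {S' : Finset (Od n)} (hS : Sep n S') {v : Od n}
    (hv : ∀ u ∈ S', Apt n u v) {i j : Fin 4} (hij : i ≠ j) (r : ℝ) :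
    vol n (pp n).1 ((insert v S').image Subtype.val)
        {φ | |φ (cn n v i).1 - φ (cn n v j).1| ≤ r} ≤
      ENNReal.ofReal (2 * r) * (512 ^ (S'.card + 2) * vol n (pp n).1 ∅ Set.univ) := by
  by_cases hi : cn n v i = pp n
  · have hj : cn n v j ≠ pp n := fun h => hij (kg_cn n hn v (hi.trans h.symm))
    have e : ({φ | |φ (cn n v i).1 - φ (cn n v j).1| ≤ r} : Set (Tor n → ℝ)) =
        {φ | |φ (cn n v j).1 - φ (cn n v i).1| ≤ r} := by
      ext φ
      simp only [Set.mem_ofPred_eq]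
      rw [abs_sub_comm]
    rw [e]
    exact kg_vol1 n hn hS hv hij.symm hj r
  · exact kg_vol1 n hn hS hv hij hi r

/-- the total weight of the sets that contain `S` -/
theorem bd_FT (n : ℕ) [NeZero n] (hn : 2 ≤ n) (S : Finset (Od n)) :
    ∑ T ∈ Finset.univ.filter (fun T : Finset (Od n) => S ⊆ T),
        ∫⁻ a, ENNReal.ofReal (FT n T a) ∂bs (pp n) ≤
      ENNReal.ofReal (64 ^ 32 * (1 / 64) ^ S.card) * vol n (pp n).1 ∅ Set.univ := by
  obtain ⟨S', h1, h2, h3, h4⟩ := sep_exists n S ⟨dir n 0, kg_par n⟩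
  refine (kg_mainT n h1).trans ?_
  refine (mul_le_mul_right (rm_sep n hn S' h2) _).trans ?_
  rw [kg_e (pow_nonneg kg_z0 _)]
  exact mul_le_mul_left (ENNReal.ofReal_le_ofReal (kg_num h4)) _

/-- without the cell `v` -/
theorem bd_Fv (n : ℕ) [NeZero n] (hn : 2 ≤ n) (S : Finset (Od n)) {v : Od n} (hv : v ∉ S) :
    ∑ T ∈ Finset.univ.filter (fun T : Finset (Od n) => S ⊆ T ∧ v ∉ T),
        ∫⁻ a, ENNReal.ofReal (Fv n T v a) ∂bs (pp n) ≤
      ENNReal.ofReal (512 * 64 ^ 32 * (1 / 64) ^ S.card) * vol n (pp n).1 ∅ Set.univ := by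
  obtain ⟨S', h1, h2, h3, h4⟩ := sep_exists n S v
  have e := kg_main n h1 hv (E := Set.univ) MeasurableSet.univ
  have e1 : ({φ | (fun y : Ev n => φ y.1) ∈ (Set.univ : Set (Ev n → ℝ))} : Set (Tor n → ℝ)) =
      Set.univ := by
    ext φ
    simp
  rw [e1, Measure.restrict_univ] at e
  refine e.trans ?_
  refine (mul_le_mul_right (rm_sep_v n hn S' h2 v h3) _).trans ?_
  rw [kg_e (pow_nonneg kg_z0 _)]
  refine mul_le_mul_left (ENNReal.ofReal_le_ofReal ?_) _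
  have := kg_num h4
  calc z0 ^ S'.card * 512 ^ (S'.card + 1) = 512 * (z0 ^ S'.card * 512 ^ S'.card) := by ring
    _ ≤ 512 * (64 ^ 32 * (1 / 64) ^ S.card) := by linarith
    _ = 512 * 64 ^ 32 * (1 / 64) ^ S.card := by ring

/-- without the cell `v`, two corners of `v` with close heights -/
theorem bd_near (n : ℕ) [NeZero n] (hn : 2 ≤ n) (S : Finset (Od n)) {v : Od n} (hv : v ∉ S)
    {r : ℝ} (hr : 0 ≤ r) :
    ∑ T ∈ Finset.univ.filter (fun T : Finset (Od n) => S ⊆ T ∧ v ∉ T),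
        ∫⁻ a in {a | near r (loc (cn n) a v)}, ENNReal.ofReal (Fv n T v a) ∂bs (pp n) ≤
      ENNReal.ofReal (24 * r * 512 ^ 2 * 64 ^ 32 * (1 / 64) ^ S.card) *
        vol n (pp n).1 ∅ Set.univ := by
  obtain ⟨S', h1, h2, h3, h4⟩ := sep_exists n S v
  let E : {x : Fin 4 × Fin 4 // x.1 ≠ x.2} → Set (Ev n → ℝ) := fun x =>
    {a | |a (cn n v x.1.1) - a (cn n v x.1.2)| ≤ r}
  have hE : ∀ x, MeasurableSet (E x) := fun x =>
    measurableSet_le (by fun_prop) measurable_const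
  have hsub : {a : Ev n → ℝ | near r (loc (cn n) a v)} ⊆ ⋃ x, E x := by
    rintro a ⟨i, j, hij, hd⟩
    exact Set.mem_iUnion.2 ⟨⟨(i, j), hij⟩, hd⟩
  have hx : ∀ x, ∑ T ∈ Finset.univ.filter (fun T : Finset (Od n) => S ⊆ T ∧ v ∉ T),
      ∫⁻ a in E x, ENNReal.ofReal (Fv n T v a) ∂bs (pp n) ≤
        ENNReal.ofReal (2 * r * 512 ^ 2 * 64 ^ 32 * (1 / 64) ^ S.card) *
          vol n (pp n).1 ∅ Set.univ := by
    intro x
    refine (kg_main n h1 hv (hE x)).trans ?_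
    refine (mul_le_mul_right (kg_vol2 n hn h2 h3 x.2 r) _).trans ?_
    rw [← mul_assoc, ← ENNReal.ofReal_mul (pow_nonneg kg_z0 _),
      kg_e (mul_nonneg (pow_nonneg kg_z0 _) (by positivity))]
    refine mul_le_mul_left (ENNReal.ofReal_le_ofReal ?_) _
    have := mul_le_mul_of_nonneg_left (kg_num h4) (by positivity : 0 ≤ 2 * r * 512 ^ 2)
    calc z0 ^ S'.card * (2 * r) * 512 ^ (S'.card + 2) =
          2 * r * 512 ^ 2 * (z0 ^ S'.card * 512 ^ S'.card) := by ring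
      _ ≤ 2 * r * 512 ^ 2 * (64 ^ 32 * (1 / 64) ^ S.card) := this
      _ = 2 * r * 512 ^ 2 * 64 ^ 32 * (1 / 64) ^ S.card := by ring
  calc ∑ T ∈ Finset.univ.filter (fun T : Finset (Od n) => S ⊆ T ∧ v ∉ T),
        ∫⁻ a in {a | near r (loc (cn n) a v)}, ENNReal.ofReal (Fv n T v a) ∂bs (pp n)
      ≤ ∑ T ∈ Finset.univ.filter (fun T : Finset (Od n) => S ⊆ T ∧ v ∉ T),
        ∑ x, ∫⁻ a in E x, ENNReal.ofReal (Fv n T v a) ∂bs (pp n) := by
        refine Finset.sum_le_sum fun T _ => ?_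
        refine (lintegral_mono_set hsub).trans ?_
        refine (lintegral_iUnion_le _ _).trans ?_
        rw [tsum_fintype]
    _ = ∑ x, ∑ T ∈ Finset.univ.filter (fun T : Finset (Od n) => S ⊆ T ∧ v ∉ T),
        ∫⁻ a in E x, ENNReal.ofReal (Fv n T v a) ∂bs (pp n) := Finset.sum_comm
    _ ≤ ∑ _x : {x : Fin 4 × Fin 4 // x.1 ≠ x.2},
        ENNReal.ofReal (2 * r * 512 ^ 2 * 64 ^ 32 * (1 / 64) ^ S.card) *
          vol n (pp n).1 ∅ Set.univ := Finset.sum_le_sum fun x _ => hx x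
    _ = ENNReal.ofReal (24 * r * 512 ^ 2 * 64 ^ 32 * (1 / 64) ^ S.card) *
        vol n (pp n).1 ∅ Set.univ := by
        have hc : (Finset.univ : Finset {x : Fin 4 × Fin 4 // x.1 ≠ x.2}).card = 12 := by decide
        rw [Finset.sum_const, hc, ← smul_mul_assoc]
        congr 1
        rw [nsmul_eq_mul]
        have e12 : ((12 : ℕ) : ENNReal) = ENNReal.ofReal 12 := by
          rw [Nat.cast_ofNat]
          exact (ENNReal.ofReal_ofNat 12).symm
        rw [e12, ← ENNReal.ofReal_mul (by norm_num)]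
        congr 1
        ring

end HKK
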