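import Mathlib
import Pool.Agent.Lib_helper69.HKK.Ifc
import Pool.Agent.Lib_helper69.HKK.W.ka
import Pool.Agent.Lib_helper69.HKK.W.kb
import Pool.Agent.Lib_helper69.HKK.W.kg

set_option autoImplicit false

namespace HKK

open MeasureTheory QG HK HKC

theorem kh_loc (n : ℕ) [NeZero n] (v : Od n) :
    Measurable (fun a : Ev n → ℝ => loc (cn n) a v) :=
  measurable_pi_lambda _ fun i => measurable_pi_apply _

theorem kh_near (r : ℝ) : MeasurableSet {t : Fin 4 → ℝ | near r t} := by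
  have h : {t : Fin 4 → ℝ | near r t} =
      ⋃ i : Fin 4, ⋃ j : Fin 4, {t : Fin 4 → ℝ | i ≠ j ∧ |t i - t j| ≤ r} := by
    ext t
    simp only [near, Set.mem_setOf_eq, Set.mem_iUnion]
  rw [h]
  refine MeasurableSet.iUnion fun i => MeasurableSet.iUnion fun j => ?_
  by_cases hij : i ≠ j
  · have h2 : {t : Fin 4 → ℝ | i ≠ j ∧ |t i - t j| ≤ r} = {t : Fin 4 → ℝ | |t i - t j| ≤ r} := by
      ext t
      simp only [Set.mem_setOf_eq, and_iff_right hij]
    rw [h2]
    have hm : Measurable (fun t : Fin 4 → ℝ => |t i - t j|) :=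
      ((measurable_pi_apply i).sub (measurable_pi_apply j)).abs
    exact measurableSet_le hm measurable_const
  · have h2 : {t : Fin 4 → ℝ | i ≠ j ∧ |t i - t j| ≤ r} = ∅ := by
      ext t
      simp only [Set.mem_setOf_eq, Set.mem_empty_iff_false, iff_false]
      exact fun h => hij h.1
    rw [h2]
    exact MeasurableSet.empty

/-- one set -/
theorem kh_one (n : ℕ) [NeZero n] (T : Finset (Od n)) (v : Od n) {η : ℝ} (hη : 0 ≤ η) :
    ∫⁻ a, ENNReal.ofReal (er η (loc (cn n) a v) * Fv n T v a) ∂bs (pp n) ≤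
      ENNReal.ofReal (2 * η) *
        ∫⁻ a in {a | near η (loc (cn n) a v)}, ENNReal.ofReal (Fv n T v a) ∂bs (pp n) +
      ENNReal.ofReal (η ^ 2 / z0) * ∫⁻ a, ENNReal.ofReal (Fv n T v a) ∂bs (pp n) := by
  classical
  have hm := FT_meas n T v
  have hmF : Measurable (fun a : Ev n → ℝ => ENNReal.ofReal (Fv n T v a)) :=
    ENNReal.measurable_ofReal.comp hm.2.1
  have hN : MeasurableSet {a : Ev n → ℝ | near η (loc (cn n) a v)} := kh_loc n v (kh_near η)
  rw [← lintegral_indicator hN, ← lintegral_const_mul _ (hmF.indicator hN),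
    ← lintegral_const_mul _ hmF, ← lintegral_add_left ((hmF.indicator hN).const_mul _)]
  refine lintegral_mono fun a => ?_
  have hF := (hm.2.2 a).2
  have hz : 0 ≤ η ^ 2 / z0 := by unfold z0; positivity
  by_cases ha : near η (loc (cn n) a v)
  · have ha' : a ∈ {a : Ev n → ℝ | near η (loc (cn n) a v)} := ha
    simp only [er, if_pos ha, Set.indicator_of_mem ha']
    rw [add_mul]
    refine ENNReal.ofReal_add_le.trans (le_of_eq ?_)
    rw [ENNReal.ofReal_mul (by positivity), ENNReal.ofReal_mul hz]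
  · have ha' : a ∉ {a : Ev n → ℝ | near η (loc (cn n) a v)} := ha
    simp only [er, if_neg ha, Set.indicator_of_notMem ha', zero_add, mul_zero]
    rw [ENNReal.ofReal_mul hz]

/-- the sum of the errors in the cell `v` -/
theorem bd_er (n : ℕ) [NeZero n] (hn : 2 ≤ n) (S : Finset (Od n)) {v : Od n} (hv : v ∉ S)
    {η : ℝ} (hη : 0 ≤ η) :
    ∑ T ∈ Finset.univ.filter (fun T : Finset (Od n) => S ⊆ T ∧ v ∉ T),
        ∫⁻ a, ENNReal.ofReal (er η (loc (cn n) a v) * Fv n T v a) ∂bs (pp n) ≤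
      ENNReal.ofReal (2 ^ 223 * η ^ 2 * (1 / 64) ^ S.card) * vol n (pp n).1 ∅ Set.univ := by
  have hz : 0 ≤ η ^ 2 / z0 := by unfold z0; positivity
  have hη2 : 0 ≤ 2 * η := by positivity
  refine (Finset.sum_le_sum fun T _ => kh_one n T v hη).trans ?_
  rw [Finset.sum_add_distrib, ← Finset.mul_sum, ← Finset.mul_sum]
  refine (add_le_add (mul_le_mul_right (bd_near n hn S hv hη) _)
    (mul_le_mul_right (bd_Fv n hn S hv) _)).trans ?_
  rw [← mul_assoc, ← mul_assoc, ← ENNReal.ofReal_mul hη2, ← ENNReal.ofReal_mul hz, ← add_mul,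
    ← ENNReal.ofReal_add (by positivity) (by positivity)]
  refine mul_le_mul_left (ENNReal.ofReal_le_ofReal ?_) _
  obtain ⟨c, hc⟩ : ∃ c : ℝ, c = (1 / 64) ^ S.card := ⟨_, rfl⟩
  rw [← hc]
  have hc0 : 0 ≤ c := by rw [hc]; positivity
  have h1 : 2 * η * (24 * η * 512 ^ 2 * 64 ^ 32 * c) + η ^ 2 / z0 * (512 * 64 ^ 32 * c) =
      (64 ^ 32 * (48 * 512 ^ 2 + 2 ^ 21 * 512)) * (η ^ 2 * c) := by
    unfold z0
    ring
  rw [h1]
  have h2 : (2 : ℝ) ^ 223 * η ^ 2 * c = 2 ^ 223 * (η ^ 2 * c) := by ring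
  rw [h2]
  refine mul_le_mul_of_nonneg_right ?_ (by positivity)
  norm_num

end HKK
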