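import Mathlib
import Pool.Agent.Lib_helper69.HKK.Ifc

set_option autoImplicit false

namespace HKK

open MeasureTheory QG HK HKC

theorem kk_tel (m N : ℕ) (hm : 1 ≤ m) :
    ∑ k ∈ Finset.range N, 1 / ((m : ℝ) + k) ^ 2 ≤ 2 / (m : ℝ) - 2 / ((m : ℝ) + N) := by
  have hm' : (1 : ℝ) ≤ m := by exact_mod_cast hm
  induction N with
  | zero => simp
  | succ N ih =>
    rw [Finset.sum_range_succ]
    have hN : (0 : ℝ) ≤ N := Nat.cast_nonneg N
    have h1 : (0 : ℝ) < m + N := by linarith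
    have h2 : (0 : ℝ) < m + N + 1 := by linarith
    have h3 : 1 / ((m : ℝ) + N) ^ 2 ≤ 2 / ((m : ℝ) + N) - 2 / ((m : ℝ) + N + 1) := by
      rw [div_sub_div _ _ h1.ne' h2.ne', div_le_div_iff₀ (by positivity) (by positivity)]
      nlinarith
    have h4 : ((m : ℝ) + ((N + 1 : ℕ) : ℝ)) = m + N + 1 := by push_cast; ring
    rw [h4]
    linarith

theorem kk_row (a N : ℕ) :
    ∑ k ∈ Finset.range N, 1 / (1 + ((a : ℝ) + k)) ^ 2 ≤ 2 / (1 + (a : ℝ)) := by
  have h := kk_tel (a + 1) N (by omega)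
  have h2 : ∑ k ∈ Finset.range N, 1 / (1 + ((a : ℝ) + k)) ^ 2 =
      ∑ k ∈ Finset.range N, 1 / (((a + 1 : ℕ) : ℝ) + k) ^ 2 := by
    refine Finset.sum_congr rfl fun k _ => ?_
    push_cast
    ring_nf
  rw [h2]
  have h3 : (0 : ℝ) ≤ 2 / (((a + 1 : ℕ) : ℝ) + N) := by positivity
  have h4 : (2 : ℝ) / (((a + 1 : ℕ) : ℝ)) = 2 / (1 + (a : ℝ)) := by
    push_cast
    rw [add_comm]
  linarith

theorem kk_har (N : ℕ) (hN : 1 ≤ N) :
    ∑ k ∈ Finset.range N, 1 / (1 + (k : ℝ)) ≤ 1 + Real.log N := by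
  have h := harmonic_le_one_add_log N
  have h2 : ((harmonic N : ℚ) : ℝ) = ∑ k ∈ Finset.range N, 1 / (1 + (k : ℝ)) := by
    unfold harmonic
    push_cast
    refine Finset.sum_congr rfl fun k _ => ?_
    rw [one_div, add_comm]
  rw [h2] at h
  exact h

/-- the code of a cell -/
noncomputable def kk_cod (n : ℕ) [NeZero n] (v : Od n) : (ℕ × ℕ) × (Bool × Bool) :=
  (((cn n v 0).1.1.valMinAbs.natAbs, (cn n v 0).1.2.valMinAbs.natAbs),
    (decide ((cn n v 0).1.1.valMinAbs < 0), decide ((cn n v 0).1.2.valMinAbs < 0)))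

theorem kk_int {a b : ℤ} (h : a.natAbs = b.natAbs) (h' : decide (a < 0) = decide (b < 0)) :
    a = b := by
  have h2 : (a < 0) ↔ (b < 0) := by simpa using h'
  omega

theorem kk_inj (n : ℕ) [NeZero n] : Function.Injective (kk_cod n) := by
  intro v w h
  unfold kk_cod at h
  simp only [Prod.mk.injEq] at h
  obtain ⟨⟨h1, h2⟩, h3, h4⟩ := h
  have e1 := ZMod.valMinAbs_inj.1 (kk_int h1 h3)
  have e2 := ZMod.valMinAbs_inj.1 (kk_int h2 h4)
  have e3 : (cn n v 0).1 = (cn n w 0).1 := Prod.ext e1 e2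
  have e4 : v.1 + dir n 0 = w.1 + dir n 0 := e3
  exact Subtype.ext (add_right_cancel e4)

theorem kk_lev (n : ℕ) [NeZero n] (v : Od n) :
    lev n (cn n v 0) = ((kk_cod n v).1.1 + (kk_cod n v).1.2) / 2 := by
  unfold lev lv dg kk_cod
  simp

theorem kk_mem (n : ℕ) [NeZero n] (v : Od n) :
    kk_cod n v ∈ (Finset.range (n + 1) ×ˢ Finset.range (n + 1)) ×ˢ
      (Finset.univ : Finset (Bool × Bool)) := by
  have h : ∀ x : ZMod (2 * n), x.valMinAbs.natAbs < n + 1 := by
    intro x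
    have := ZMod.natAbs_valMinAbs_le x
    omega
  simp only [Finset.mem_product, Finset.mem_range, Finset.mem_univ, and_true]
  exact ⟨h _, h _⟩

/-- the sum over the levels -/
theorem sum_lev : ∃ C : ℝ, 0 < C ∧ ∀ (n : ℕ) [NeZero n], 2 ≤ n →
    ∑ v : Od n, 1 / (1 + (lev n (cn n v 0) : ℝ)) ^ 2 ≤ C * Real.log n := by
  refine ⟨200, by norm_num, fun n _ hn => ?_⟩
  have hn' : (2 : ℝ) ≤ n := by exact_mod_cast hn
  -- the function on the codes
  set g : (ℕ × ℕ) × (Bool × Bool) → ℝ :=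
    fun c => 4 * (1 / (1 + ((c.1.1 : ℝ) + c.1.2)) ^ 2) with hg
  have hg0 : ∀ c, 0 ≤ g c := fun c => by rw [hg]; positivity
  have h1 : ∀ v : Od n, 1 / (1 + (lev n (cn n v 0) : ℝ)) ^ 2 ≤ g (kk_cod n v) := by
    intro v
    rw [kk_lev]
    simp only [hg]
    set a := (kk_cod n v).1.1
    set b := (kk_cod n v).1.2
    have h2 : (1 + ((a : ℝ) + b)) / 2 ≤ 1 + (((a + b) / 2 : ℕ) : ℝ) := by
      have h3 : a + b + 1 ≤ 2 * (1 + (a + b) / 2) := by omega
      have h4 : ((a + b + 1 : ℕ) : ℝ) ≤ ((2 * (1 + (a + b) / 2) : ℕ) : ℝ) := by exact_mod_cast h3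
      push_cast at h4
      push_cast
      linarith
    have h5 : (0 : ℝ) < (1 + ((a : ℝ) + b)) / 2 := by positivity
    calc 1 / (1 + (((a + b) / 2 : ℕ) : ℝ)) ^ 2 ≤ 1 / ((1 + ((a : ℝ) + b)) / 2) ^ 2 := by
          apply one_div_le_one_div_of_le (by positivity)
          exact pow_le_pow_left₀ h5.le h2 2
      _ = 4 * (1 / (1 + ((a : ℝ) + b)) ^ 2) := by
          field_simp
          norm_num
  calc ∑ v : Od n, 1 / (1 + (lev n (cn n v 0) : ℝ)) ^ 2 ≤ ∑ v : Od n, g (kk_cod n v) :=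
        Finset.sum_le_sum fun v _ => h1 v
    _ = ∑ c ∈ Finset.univ.image (kk_cod n), g c := by
        rw [Finset.sum_image]
        exact fun v _ w _ h => kk_inj n h
    _ ≤ ∑ c ∈ (Finset.range (n + 1) ×ˢ Finset.range (n + 1)) ×ˢ
          (Finset.univ : Finset (Bool × Bool)), g c := by
        apply Finset.sum_le_sum_of_subset_of_nonneg
        · intro c hc
          obtain ⟨v, _, rfl⟩ := Finset.mem_image.1 hc
          exact kk_mem n v
        · intro c _ _
          exact hg0 c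
    _ = ∑ a ∈ Finset.range (n + 1), ∑ b ∈ Finset.range (n + 1),
          16 * (1 / (1 + ((a : ℝ) + b)) ^ 2) := by
        rw [Finset.sum_product]
        have h2 : ∀ x ∈ Finset.range (n + 1) ×ˢ Finset.range (n + 1),
            ∑ y : Bool × Bool, g (x, y) = 16 * (1 / (1 + ((x.1 : ℝ) + x.2)) ^ 2) := by
          intro x _
          simp only [hg, Finset.sum_const, Finset.card_univ, Fintype.card_prod, Fintype.card_bool,
            nsmul_eq_mul]
          push_cast
          ring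
        rw [Finset.sum_congr rfl h2, Finset.sum_product]
    _ ≤ ∑ a ∈ Finset.range (n + 1), 32 * (1 / (1 + (a : ℝ))) := by
        refine Finset.sum_le_sum fun a _ => ?_
        rw [← Finset.mul_sum]
        have := kk_row a (n + 1)
        have h3 : 2 / (1 + (a : ℝ)) = 2 * (1 / (1 + (a : ℝ))) := by ring
        linarith
    _ ≤ 32 * (1 + Real.log ((n + 1 : ℕ) : ℝ)) := by
        rw [← Finset.mul_sum]
        exact mul_le_mul_of_nonneg_left (kk_har (n + 1) (by omega)) (by norm_num)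
    _ ≤ 200 * Real.log n := by
        have h3 : Real.log ((n + 1 : ℕ) : ℝ) ≤ Real.log 2 + Real.log n := by
          rw [← Real.log_mul (by norm_num) (by positivity)]
          apply Real.log_le_log (by positivity)
          push_cast
          linarith
        have h4 : Real.log 2 ≤ Real.log n := Real.log_le_log (by norm_num) hn'
        have h5 := Real.log_two_gt_d9
        have h6 := Real.log_two_lt_d9
        linarith

end HKK
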