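import Mathlib
import Pool.Agent.Lib_helper69.HKK.Ifc
import Pool.Agent.Lib_helper69.HKK.W.ka
import Pool.Agent.Lib_helper69.HKK.W.kb
import Pool.Agent.Lib_helper69.HKK.W.kh
import Pool.Agent.Lib_helper69.HKK.W.ki
import Pool.Agent.Lib_helper69.HKK.W.kj
import Pool.Agent.Lib_helper69.HKK.W.kk

set_option autoImplicit false

namespace HKK

open MeasureTheory QG HK HKC

/-- the comparison integral -/
noncomputable def klI (n : ℕ) [NeZero n] (b : ℝ) (v : Od n) (T : Finset (Od n)) (M : ℕ) :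
    ENNReal :=
  ∫⁻ a, ENNReal.ofReal (er (et n b M v) (loc (cn n) a v) * Fv n T v a) ∂bs (pp n)

theorem kl_four (M : ℕ) : (2 + (M : ℝ)) ^ 4 ≤ 256 * 2 ^ M := by
  induction M with
  | zero => norm_num
  | succ M ih =>
    rcases lt_or_ge M 4 with h | h
    · interval_cases M <;> norm_num
    · have h4 : (4 : ℝ) ≤ M := by exact_mod_cast h
      push_cast
      have h1 : (2 + ((M : ℝ) + 1)) ≤ (7 / 6) * (2 + (M : ℝ)) := by linarith
      have h2 : (2 + ((M : ℝ) + 1)) ^ 4 ≤ ((7 / 6) * (2 + (M : ℝ))) ^ 4 :=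
        pow_le_pow_left₀ (by linarith) h1 4
      have h3 : ((7 / 6 : ℝ) * (2 + (M : ℝ))) ^ 4 = (7 / 6) ^ 4 * (2 + (M : ℝ)) ^ 4 := by ring
      have h5 : (0 : ℝ) ≤ (2 + (M : ℝ)) ^ 4 := by positivity
      have h6 : ((7 : ℝ) / 6) ^ 4 ≤ 2 := by norm_num
      have h7 : ((7 : ℝ) / 6) ^ 4 * (2 + (M : ℝ)) ^ 4 ≤ 2 * (2 + (M : ℝ)) ^ 4 :=
        mul_le_mul_of_nonneg_right h6 h5
      have h8 : (256 : ℝ) * 2 ^ (M + 1) = 2 * (256 * 2 ^ M) := by rw [pow_succ]; ring
      rw [h8]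
      linarith

theorem kl_et (n : ℕ) [NeZero n] (b : ℝ) (v : Od n) (M : ℕ) :
    (16 : ℝ) ^ M * (2 ^ 223 * (et n b M v) ^ 2 * (1 / 64) ^ M) ≤
      2 ^ 233 * b ^ 2 * (1 / (1 + (lev n (cn n v 0) : ℝ)) ^ 2) * (1 / 2) ^ M := by
  unfold et
  have hl : (0 : ℝ) < 1 + (lev n (cn n v 0) : ℝ) := by positivity
  have h4 := kl_four M
  have e1 : (16 : ℝ) ^ M * (2 ^ 223 * (b * (2 * (2 + (M : ℝ)) ^ 2 /
      (1 + (lev n (cn n v 0) : ℝ)))) ^ 2 * (1 / 64) ^ M) =
      2 ^ 225 * b ^ 2 * (1 / (1 + (lev n (cn n v 0) : ℝ)) ^ 2) *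
        ((2 + (M : ℝ)) ^ 4 * ((16 : ℝ) ^ M * (1 / 64) ^ M)) := by
    have e0 : (2 : ℝ) ^ 225 = 2 ^ 223 * 4 := by norm_num
    rw [e0]
    generalize (2 : ℝ) ^ 223 = Q
    field_simp
    try ring
  rw [e1]
  have e2 : (2 ^ 233 : ℝ) * b ^ 2 * (1 / (1 + (lev n (cn n v 0) : ℝ)) ^ 2) * (1 / 2) ^ M =
      2 ^ 225 * b ^ 2 * (1 / (1 + (lev n (cn n v 0) : ℝ)) ^ 2) * (256 * (1 / 2) ^ M) := by
    ring
  rw [e2]
  have hQ : (0 : ℝ) ≤ 2 ^ 225 := pow_nonneg (by norm_num) _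
  generalize (2 : ℝ) ^ 225 = Q at hQ ⊢
  refine mul_le_mul_of_nonneg_left ?_ (by positivity)
  have e3 : (16 : ℝ) ^ M * (1 / 64) ^ M = (1 / 4) ^ M := by
    rw [← mul_pow]; norm_num
  rw [e3]
  calc (2 + (M : ℝ)) ^ 4 * (1 / 4) ^ M ≤ (256 * 2 ^ M) * (1 / 4) ^ M :=
        mul_le_mul_of_nonneg_right h4 (by positivity)
    _ = 256 * (1 / 2) ^ M := by
        rw [mul_assoc, ← mul_pow]; norm_num

/-- the errors of one cell -/
theorem err_cell : ∃ C : ℝ, 0 < C ∧ ∀ (n : ℕ) [NeZero n], 2 ≤ n → ∀ b : ℝ, 0 ≤ b → ∀ v : Od n,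
    ∑ T ∈ Finset.univ.filter (fun T : Finset (Od n) => v ∉ T),
        ∫⁻ a, ENNReal.ofReal (er (osc (loc (cn n) (gT n T b) v)) (loc (cn n) a v) *
          Fv n T v a) ∂bs (pp n) ≤
      ENNReal.ofReal (C * b ^ 2 * (1 / (1 + (lev n (cn n v 0) : ℝ)) ^ 2)) *
        vol n (pp n).1 ∅ Set.univ := by
  classical
  refine ⟨4 * (2 * 2 ^ 233), by norm_num, ?_⟩
  intro n _ hn b hb v
  set K := Fintype.card (Od n) with hK
  set Ci : Fin 4 → ℕ → Finset (Finset (Od n)) := fun i M =>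
    Finset.univ.filter fun S : Finset (Od n) => ∃ y', Chn n M (cn n v i) y' S with hCi
  have het : ∀ M, 0 ≤ et n b M v := by
    intro M
    unfold et
    positivity
  -- one set `T`
  have h1 : ∀ T ∈ Finset.univ.filter (fun T : Finset (Od n) => v ∉ T),
      ∫⁻ a, ENNReal.ofReal (er (osc (loc (cn n) (gT n T b) v)) (loc (cn n) a v) *
          Fv n T v a) ∂bs (pp n) ≤
        ∑ i : Fin 4, ∑ M ∈ Finset.range (K + 1), ∑ S ∈ (Ci i M).filter (fun S => S ⊆ T),
          klI n b v T M := by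
    intro T _
    obtain ⟨M, S, i, y', hS, hc, h0, h2⟩ := gT_osc n T hb v
    have hM : S.card = M := (chn_card hc).1
    have hMK : M ∈ Finset.range (K + 1) := by
      rw [Finset.mem_range]
      have := Finset.card_le_univ S
      omega
    have hSC : S ∈ (Ci i M).filter (fun S => S ⊆ T) := by
      simp only [hCi, Finset.mem_filter, Finset.mem_univ, true_and]
      exact ⟨⟨y', hc⟩, hS⟩
    have hle : ∫⁻ a, ENNReal.ofReal (er (osc (loc (cn n) (gT n T b) v)) (loc (cn n) a v) *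
          Fv n T v a) ∂bs (pp n) ≤ klI n b v T M := by
      unfold klI
      refine lintegral_mono fun a => ENNReal.ofReal_le_ofReal ?_
      exact mul_le_mul_of_nonneg_right (er_mono _ h0 h2).2 ((FT_meas n T v).2.2 a).2
    refine hle.trans ?_
    calc klI n b v T M ≤ ∑ S ∈ (Ci i M).filter (fun S => S ⊆ T), klI n b v T M :=
          Finset.single_le_sum (f := fun _ => klI n b v T M) (fun _ _ => zero_le) hSC
      _ ≤ ∑ M ∈ Finset.range (K + 1), ∑ S ∈ (Ci i M).filter (fun S => S ⊆ T),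
            klI n b v T M :=
          Finset.single_le_sum (f := fun M => ∑ S ∈ (Ci i M).filter (fun S => S ⊆ T),
            klI n b v T M) (fun _ _ => zero_le) hMK
      _ ≤ _ :=
          Finset.single_le_sum (f := fun i => ∑ M ∈ Finset.range (K + 1),
            ∑ S ∈ (Ci i M).filter (fun S => S ⊆ T), klI n b v T M)
            (fun _ _ => zero_le) (Finset.mem_univ i)
  refine (Finset.sum_le_sum h1).trans ?_
  rw [Finset.sum_comm]
  -- the sum for one `i`
  have h2 : ∀ i ∈ (Finset.univ : Finset (Fin 4)),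
      ∑ T ∈ Finset.univ.filter (fun T : Finset (Od n) => v ∉ T),
        ∑ M ∈ Finset.range (K + 1), ∑ S ∈ (Ci i M).filter (fun S => S ⊆ T), klI n b v T M ≤
      ENNReal.ofReal (2 * 2 ^ 233 * b ^ 2 * (1 / (1 + (lev n (cn n v 0) : ℝ)) ^ 2)) *
        vol n (pp n).1 ∅ Set.univ := by
    intro i _
    rw [Finset.sum_comm]
    have h3 : ∀ M ∈ Finset.range (K + 1),
        ∑ T ∈ Finset.univ.filter (fun T : Finset (Od n) => v ∉ T),
          ∑ S ∈ (Ci i M).filter (fun S => S ⊆ T), klI n b v T M ≤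
        ENNReal.ofReal (2 ^ 233 * b ^ 2 * (1 / (1 + (lev n (cn n v 0) : ℝ)) ^ 2) *
          (1 / 2) ^ M) * vol n (pp n).1 ∅ Set.univ := by
      intro M _
      have hsw : ∑ T ∈ Finset.univ.filter (fun T : Finset (Od n) => v ∉ T),
          ∑ S ∈ (Ci i M).filter (fun S => S ⊆ T), klI n b v T M =
          ∑ S ∈ Ci i M, ∑ T ∈ Finset.univ.filter (fun T : Finset (Od n) => S ⊆ T ∧ v ∉ T),
            klI n b v T M := by
        refine Finset.sum_comm' ?_
        intro T S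
        simp only [Finset.mem_filter, Finset.mem_univ, true_and]
        tauto
      rw [hsw]
      have h4 : ∀ S ∈ Ci i M,
          ∑ T ∈ Finset.univ.filter (fun T : Finset (Od n) => S ⊆ T ∧ v ∉ T),
            klI n b v T M ≤
          ENNReal.ofReal (2 ^ 223 * (et n b M v) ^ 2 * (1 / 64) ^ M) *
            vol n (pp n).1 ∅ Set.univ := by
        intro S hS
        have hSm : S.card = M := by
          simp only [hCi, Finset.mem_filter, Finset.mem_univ, true_and] at hS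
          obtain ⟨y', hc⟩ := hS
          exact (chn_card hc).1
        by_cases hv : v ∈ S
        · have he : Finset.univ.filter (fun T : Finset (Od n) => S ⊆ T ∧ v ∉ T) = ∅ := by
            refine Finset.filter_eq_empty_iff.2 ?_
            rintro T - ⟨hT, hvT⟩
            exact hvT (hT hv)
          rw [he]
          simp
        · have := bd_er n hn S hv (het M)
          rw [hSm] at this
          exact this
      refine (Finset.sum_le_sum h4).trans ?_
      rw [Finset.sum_const, nsmul_eq_mul, ← mul_assoc]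
      refine mul_le_mul_left ?_ _
      have hcard : ((Ci i M).card : ENNReal) ≤ ENNReal.ofReal (16 ^ M) := by
        have h5 : (Ci i M).card ≤ 16 ^ M := chn_count n M (cn n v i)
        have h6 : ((Ci i M).card : ENNReal) ≤ ((16 ^ M : ℕ) : ENNReal) := by exact_mod_cast h5
        refine h6.trans (le_of_eq ?_)
        rw [← ENNReal.ofReal_natCast]
        push_cast
        rfl
      calc ((Ci i M).card : ENNReal) * ENNReal.ofReal (2 ^ 223 * (et n b M v) ^ 2 * (1 / 64) ^ M)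
          ≤ ENNReal.ofReal (16 ^ M) *
            ENNReal.ofReal (2 ^ 223 * (et n b M v) ^ 2 * (1 / 64) ^ M) := mul_le_mul_left hcard _
        _ = ENNReal.ofReal (16 ^ M * (2 ^ 223 * (et n b M v) ^ 2 * (1 / 64) ^ M)) := by
            rw [← ENNReal.ofReal_mul (by positivity)]
        _ ≤ _ := ENNReal.ofReal_le_ofReal (kl_et n b v M)
    refine (Finset.sum_le_sum h3).trans ?_
    rw [← Finset.sum_mul]
    refine mul_le_mul_left ?_ _
    rw [← ENNReal.ofReal_sum_of_nonneg (fun M _ => by positivity), ← Finset.mul_sum]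
    refine ENNReal.ofReal_le_ofReal ?_
    have h7 := sum_geometric_two_le (K + 1)
    have h8 : (0 : ℝ) ≤ 2 ^ 233 * b ^ 2 * (1 / (1 + (lev n (cn n v 0) : ℝ)) ^ 2) := by
      positivity
    calc 2 ^ 233 * b ^ 2 * (1 / (1 + (lev n (cn n v 0) : ℝ)) ^ 2) *
          ∑ M ∈ Finset.range (K + 1), (1 / 2 : ℝ) ^ M ≤
        2 ^ 233 * b ^ 2 * (1 / (1 + (lev n (cn n v 0) : ℝ)) ^ 2) * 2 :=
          mul_le_mul_of_nonneg_left h7 h8
      _ = _ := by ring
  refine (Finset.sum_le_sum h2).trans ?_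
  rw [Finset.sum_const, Finset.card_univ, Fintype.card_fin, nsmul_eq_mul, ← mul_assoc]
  refine mul_le_mul_left (le_of_eq ?_) _
  have h9 : ((4 : ℕ) : ENNReal) = ENNReal.ofReal 4 := by
    rw [← ENNReal.ofReal_natCast]; norm_num
  rw [h9, ← ENNReal.ofReal_mul (by norm_num)]
  congr 1
  ring

/-- K4: the sum of all errors -/
theorem err_sum : ∃ C : ℝ, 0 < C ∧ ∀ (n : ℕ) [NeZero n], 2 ≤ n → ∀ b : ℝ, 0 ≤ b →
    ∑ T : Finset (Od n), ∑ v ∈ Finset.univ \ T,
        ∫⁻ a, ENNReal.ofReal (er (osc (loc (cn n) (gT n T b) v)) (loc (cn n) a v) *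
          Fv n T v a) ∂bs (pp n) ≤
      ENNReal.ofReal (C * b ^ 2 * Real.log n) * vol n (pp n).1 ∅ Set.univ := by
  obtain ⟨C1, hC1, H1⟩ := err_cell
  obtain ⟨C2, hC2, H2⟩ := sum_lev
  refine ⟨C1 * C2, mul_pos hC1 hC2, ?_⟩
  intro n _ hn b hb
  have hsw : ∑ T : Finset (Od n), ∑ v ∈ Finset.univ \ T,
        ∫⁻ a, ENNReal.ofReal (er (osc (loc (cn n) (gT n T b) v)) (loc (cn n) a v) *
          Fv n T v a) ∂bs (pp n) =
      ∑ v : Od n, ∑ T ∈ Finset.univ.filter (fun T : Finset (Od n) => v ∉ T),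
        ∫⁻ a, ENNReal.ofReal (er (osc (loc (cn n) (gT n T b) v)) (loc (cn n) a v) *
          Fv n T v a) ∂bs (pp n) := by
    refine Finset.sum_comm' ?_
    intro T v
    simp
  rw [hsw]
  refine (Finset.sum_le_sum fun v _ => H1 n hn b hb v).trans ?_
  rw [← Finset.sum_mul]
  refine mul_le_mul_left ?_ _
  rw [← ENNReal.ofReal_sum_of_nonneg (fun v _ => by positivity), ← Finset.mul_sum]
  refine ENNReal.ofReal_le_ofReal ?_
  calc C1 * b ^ 2 * ∑ v : Od n, 1 / (1 + (lev n (cn n v 0) : ℝ)) ^ 2 ≤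
      C1 * b ^ 2 * (C2 * Real.log n) :=
        mul_le_mul_of_nonneg_left (H2 n hn) (by positivity)
    _ = _ := by ring

end HKK
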