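import Mathlib
import Pool.Agent.Lib_helper69.HKK.Ifc
import Pool.Agent.Lib_helper69.HKK.W.kg
import Pool.Agent.Lib_helper69.HKK.W.ki

set_option autoImplicit false

namespace HKK

open MeasureTheory QG HK HKC

/-- a geometric sum -/
theorem km_geo (n N : ℕ) (hn : 1000 ≤ n) :
    ∑ M ∈ (Finset.range (N + 1)).filter (fun M => n < 2 * M),
      (16 : ℝ) ^ M * (64 ^ 32 * (1 / 64) ^ M) ≤ 1 / 4 := by
  have h1 : ∀ M ∈ (Finset.range (N + 1)).filter (fun M => n < 2 * M),
      (16 : ℝ) ^ M * (64 ^ 32 * (1 / 64) ^ M) ≤ (64 ^ 32 * (1 / 2) ^ 500) * (1 / 2) ^ M := by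
    intro M hM
    rw [Finset.mem_filter] at hM
    have hM5 : 500 ≤ M := by omega
    have h2 : (16 : ℝ) ^ M * (64 ^ 32 * (1 / 64) ^ M) = 64 ^ 32 * ((1 / 2) ^ M * (1 / 2) ^ M) := by
      rw [← mul_pow, mul_left_comm, ← mul_pow]
      norm_num
    rw [h2, mul_assoc]
    refine mul_le_mul_of_nonneg_left ?_ (by positivity)
    exact mul_le_mul_of_nonneg_right
      (pow_le_pow_of_le_one (by norm_num) (by norm_num) hM5) (by positivity)
  refine (Finset.sum_le_sum h1).trans ?_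
  rw [← Finset.mul_sum]
  have h3 : ∑ M ∈ (Finset.range (N + 1)).filter (fun M => n < 2 * M), (1 / 2 : ℝ) ^ M ≤ 2 := by
    refine (Finset.sum_le_sum_of_subset_of_nonneg (Finset.filter_subset _ _)
      (fun i _ _ => by positivity)).trans ?_
    have h4 : ∀ K : ℕ, ∑ M ∈ Finset.range K, (1 / 2 : ℝ) ^ M = 2 - 2 * (1 / 2) ^ K := by
      intro K
      induction K with
      | zero => simp
      | succ K ih => rw [Finset.sum_range_succ, ih, pow_succ]; ring
    rw [h4]
    have : (0 : ℝ) ≤ 2 * (1 / 2) ^ (N + 1) := by positivity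
    linarith
  refine (mul_le_mul_of_nonneg_left h3 (by positivity)).trans ?_
  have h5 : (64 : ℝ) ^ 32 * (1 / 2) ^ 500 * 2 = 1 / 2 ^ 307 := by
    have : (64 : ℝ) = 2 ^ 6 := by norm_num
    rw [this, ← pow_mul, one_div, inv_pow]
    have h6 : (2 : ℝ) ^ 500 = 2 ^ 192 * (2 * 2 ^ 307) := by
      rw [← pow_succ', ← pow_add]
    rw [h6]
    field_simp
  rw [h5]
  have h7 : (4 : ℝ) ≤ 2 ^ 307 := by
    calc (4 : ℝ) = 2 ^ 2 := by norm_num
      _ ≤ 2 ^ 307 := pow_le_pow_right₀ (by norm_num) (by norm_num)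
  exact one_div_le_one_div_of_le (by norm_num) h7

/-- the union bound -/
theorem km_union {ι κ : Type} [Fintype ι] [DecidableEq ι] (P : Finset ι → Prop)
    [DecidablePred P] (f : Finset ι → ENNReal) (R : Finset κ) (A : κ → Finset (Finset ι))
    (h : ∀ T, P T → ∃ M ∈ R, ∃ S ∈ A M, S ⊆ T) :
    ∑ T ∈ Finset.univ.filter P, f T ≤
      ∑ M ∈ R, ∑ S ∈ A M, ∑ T ∈ Finset.univ.filter (fun T : Finset ι => S ⊆ T), f T := by
  have h1 : ∀ T ∈ Finset.univ.filter P,
      f T ≤ ∑ M ∈ R, ∑ S ∈ A M, (if S ⊆ T then f T else 0) := by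
    intro T hT
    rw [Finset.mem_filter] at hT
    obtain ⟨M, hM, S, hS, hST⟩ := h T hT.2
    refine le_trans ?_ (Finset.single_le_sum
      (f := fun M => ∑ S ∈ A M, (if S ⊆ T then f T else 0)) (fun _ _ => zero_le) hM)
    refine le_trans ?_ (Finset.single_le_sum
      (f := fun S => (if S ⊆ T then f T else 0)) (fun _ _ => zero_le) hS)
    simp only [if_pos hST, le_refl]
  refine (Finset.sum_le_sum h1).trans ?_
  refine (Finset.sum_le_sum_of_subset (Finset.filter_subset _ _)).trans ?_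
  rw [Finset.sum_comm]
  refine Finset.sum_le_sum fun M _ => ?_
  rw [Finset.sum_comm]
  refine Finset.sum_le_sum fun S _ => ?_
  rw [Finset.sum_filter]

open Classical in
/-- the sets with a long chain at `(n, n)` have a small weight -/
theorem bad_sets : ∃ n0 : ℕ, 2 ≤ n0 ∧ ∀ (n : ℕ) [NeZero n], n0 ≤ n →
    ∑ T ∈ Finset.univ.filter (fun T : Finset (Od n) => ∃ (M : ℕ) (S : Finset (Od n)) (y' : Ev n),
        S ⊆ T ∧ Chn n M (dg n n) y' S ∧ n < 2 * M),
        ∫⁻ a, ENNReal.ofReal (FT n T a) ∂bs (pp n) ≤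
      ENNReal.ofReal (1 / 4) * vol n (pp n).1 ∅ Set.univ := by
  refine ⟨1000, by norm_num, ?_⟩
  intro n _ hn
  have h1 := km_union (fun T : Finset (Od n) => ∃ (M : ℕ) (S : Finset (Od n)) (y' : Ev n),
        S ⊆ T ∧ Chn n M (dg n n) y' S ∧ n < 2 * M)
    (fun T => ∫⁻ a, ENNReal.ofReal (FT n T a) ∂bs (pp n))
    ((Finset.range (Fintype.card (Od n) + 1)).filter (fun M => n < 2 * M))
    (fun M => Finset.univ.filter fun S : Finset (Od n) => ∃ y', Chn n M (dg n n) y' S) (by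
      rintro T ⟨M, S, y', hST, hc, hM⟩
      refine ⟨M, ?_, S, ?_, hST⟩
      · rw [Finset.mem_filter, Finset.mem_range]
        have h2 := (chn_card hc).1
        have h3 := Finset.card_le_univ S
        exact ⟨by omega, hM⟩
      · rw [Finset.mem_filter]
        exact ⟨Finset.mem_univ _, y', hc⟩)
  refine h1.trans ?_
  have h2 : ∀ M : ℕ, ∑ S ∈ Finset.univ.filter (fun S : Finset (Od n) =>
        ∃ y', Chn n M (dg n n) y' S),
      ∑ T ∈ Finset.univ.filter (fun T : Finset (Od n) => S ⊆ T),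
        ∫⁻ a, ENNReal.ofReal (FT n T a) ∂bs (pp n) ≤
      ENNReal.ofReal ((16 : ℝ) ^ M * (64 ^ 32 * (1 / 64) ^ M)) * vol n (pp n).1 ∅ Set.univ := by
    intro M
    refine (Finset.sum_le_card_nsmul _ _
      (ENNReal.ofReal (64 ^ 32 * (1 / 64) ^ M) * vol n (pp n).1 ∅ Set.univ) ?_).trans ?_
    · intro S hS
      rw [Finset.mem_filter] at hS
      obtain ⟨y', hc⟩ := hS.2
      have h3 := bd_FT n (by omega) S
      rwa [(chn_card hc).1] at h3
    · rw [nsmul_eq_mul, ENNReal.ofReal_mul (p := (16 : ℝ) ^ M) (by positivity),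
        mul_assoc (ENNReal.ofReal ((16 : ℝ) ^ M))]
      refine mul_le_mul' ?_ le_rfl
      have h4 := chn_count n M (dg n n)
      rw [ENNReal.ofReal_pow (by norm_num), ENNReal.ofReal_ofNat]
      exact_mod_cast h4
  refine (Finset.sum_le_sum fun M _ => h2 M).trans ?_
  rw [← Finset.sum_mul, ← ENNReal.ofReal_sum_of_nonneg (fun M _ => by positivity)]
  exact mul_le_mul' (ENNReal.ofReal_le_ofReal (km_geo n _ hn)) le_rfl

end HKK
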