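import Mathlib
import Pool.Agent.Lib_helper69.HKK.Ifc
import Pool.Agent.Lib_helper69.HKK.W.ka
import Pool.Agent.Lib_helper69.HKK.W.kb
import Pool.Agent.Lib_helper69.HKK.W.kd

set_option autoImplicit false

namespace HKK

open MeasureTheory QG HK HKC

theorem kn_sum (n : ℕ) [NeZero n] (a : Ev n → ℝ) :
    ∑ T : Finset (Od n), FT n T a = ∏ v, wh (loc (cn n) a v) := by
  have h := sum_FT n ∅ a
  have h2 : (Finset.univ.filter (fun T : Finset (Od n) => (∅ : Finset (Od n)) ⊆ T)) =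
      Finset.univ := by
    apply Finset.filter_true_of_mem
    intro T _
    exact Finset.empty_subset T
  rw [h2] at h
  rw [h, Finset.prod_empty, one_mul, Finset.sdiff_empty]

theorem kn_wh_nn (t : Fin 4 → ℝ) : 0 ≤ wh t := le_max_left _ _

theorem kn_prod_nn (n : ℕ) [NeZero n] (a : Ev n → ℝ) : 0 ≤ ∏ v, wh (loc (cn n) a v) :=
  Finset.prod_nonneg fun _ _ => kn_wh_nn _

theorem kn_loc_meas (n : ℕ) [NeZero n] (v : Od n) :
    Measurable (fun a : Ev n → ℝ => loc (cn n) a v) := by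
  unfold loc
  exact measurable_pi_lambda _ fun i => measurable_pi_apply _

theorem kn_prod_meas (n : ℕ) [NeZero n] :
    Measurable (fun a : Ev n → ℝ => ∏ v, wh (loc (cn n) a v)) :=
  Finset.measurable_prod _ fun v _ => w12_meas.1.comp (kn_loc_meas n v)

theorem kn_vol (n : ℕ) [NeZero n] :
    ∫⁻ a, ENNReal.ofReal (∏ v, wh (loc (cn n) a v)) ∂bs (pp n) =
      vol n (pp n).1 ∅ Set.univ := by
  have h := vol_even n (pp n) ∅ (E := Set.univ) MeasurableSet.univ
  have h1 : ({φ : Tor n → ℝ | (fun y : Ev n => φ y.1) ∈ (Set.univ : Set (Ev n → ℝ))}) =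
      Set.univ := by
    ext φ
    simp
  rw [h1, Finset.image_empty, Measure.restrict_univ, Finset.sdiff_empty] at h
  rw [h]
  apply lintegral_congr
  intro a
  exact ENNReal.ofReal_prod_of_nonneg fun v _ => kn_wh_nn _

/-- the cell between two diagonal sites -/
def kn_cell (n k : ℕ) : Od n := ⟨(((k + 1 : ℕ) : ZMod (2 * n)), ((k : ℕ) : ZMod (2 * n))), by
  simp only [par, map_add, map_natCast]
  push_cast
  have h : (k : ZMod 2) + 1 + k = ((k : ZMod 2) + k) + 1 := by ring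
  rw [h, CharTwo.add_self_eq_zero, zero_add]⟩

theorem kn_cell0 (n k : ℕ) : cn n (kn_cell n k) 0 = dg n k := by
  apply Subtype.ext
  apply Prod.ext
  · simp [cn, kn_cell, dg, dir]
  · simp [cn, kn_cell, dg, dir]

theorem kn_cell2 (n k : ℕ) : cn n (kn_cell n k) 2 = dg n (k + 1) := by
  apply Subtype.ext
  apply Prod.ext
  · simp [cn, kn_cell, dg, dir]
  · simp [cn, kn_cell, dg, dir]

theorem kn_osc (t : Fin 4 → ℝ) (h : wh t ≠ 0) (i j : Fin 4) : |t i - t j| ≤ 2 := by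
  have h1 : osc t < 2 := by
    by_contra hc
    push Not at hc
    apply h
    unfold wh
    exact max_eq_left (by linarith)
  have h2 : ∀ i, t i ≤ Finset.univ.sup' Finset.univ_nonempty t := fun i =>
    Finset.le_sup' t (Finset.mem_univ i)
  have h3 : ∀ i, Finset.univ.inf' Finset.univ_nonempty t ≤ t i := fun i =>
    Finset.inf'_le t (Finset.mem_univ i)
  unfold osc at h1
  rw [abs_le]
  constructor
  · linarith [h2 i, h3 i, h2 j, h3 j]
  · linarith [h2 i, h3 i, h2 j, h3 j]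

theorem kn_chain (n : ℕ) [NeZero n] (a : Ev n → ℝ) (h : ∀ v, wh (loc (cn n) a v) ≠ 0) (k : ℕ) :
    |a (dg n k) - a (dg n 0)| ≤ 2 * k := by
  induction k with
  | zero => simp
  | succ k ih =>
    have h1 := kn_osc _ (h (kn_cell n k)) 2 0
    have h2 : loc (cn n) a (kn_cell n k) 2 = a (dg n (k + 1)) := by
      unfold loc
      rw [kn_cell2]
    have h3 : loc (cn n) a (kn_cell n k) 0 = a (dg n k) := by
      unfold loc
      rw [kn_cell0]
    rw [h2, h3] at h1
    push_cast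
    rw [abs_le] at *
    constructor
    · linarith [h1.1, h1.2, ih.1, ih.2]
    · linarith [h1.1, h1.2, ih.1, ih.2]

theorem kn_bd (n : ℕ) [NeZero n] (a : Ev n → ℝ) :
    (a (dg n n) - a (dg n 0)) ^ 2 * ∏ v, wh (loc (cn n) a v) ≤
      (2 * n) ^ 2 * ∏ v, wh (loc (cn n) a v) := by
  by_cases h : ∏ v, wh (loc (cn n) a v) = 0
  · rw [h, mul_zero, mul_zero]
  · have h1 : ∀ v, wh (loc (cn n) a v) ≠ 0 := fun v =>
      Finset.prod_ne_zero_iff.1 h v (Finset.mem_univ v)
    have h2 := kn_chain n a h1 n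
    apply mul_le_mul_of_nonneg_right _ (kn_prod_nn n a)
    exact sq_le_sq' (by linarith [(abs_le.1 h2).1]) (abs_le.1 h2).2

theorem kn_X_meas (n : ℕ) :
    Measurable (fun a : Ev n → ℝ => (a (dg n n) - a (dg n 0)) ^ 2) :=
  (Measurable.sub (f := fun a : Ev n → ℝ => a (dg n n)) (g := fun a => a (dg n 0))
    (measurable_pi_apply _) (measurable_pi_apply _)).pow_const 2

theorem kn_XP_meas (n : ℕ) {F : (Ev n → ℝ) → ℝ} (hF : Measurable F) :
    Measurable (fun a : Ev n → ℝ =>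
      ENNReal.ofReal ((a (dg n n) - a (dg n 0)) ^ 2 * F a)) :=
  (Measurable.mul (kn_X_meas n) hF).ennreal_ofReal

theorem kn_I_fin (n : ℕ) [NeZero n] :
    ∫⁻ a, ENNReal.ofReal ((a (dg n n) - a (dg n 0)) ^ 2 * ∏ v, wh (loc (cn n) a v)) ∂bs (pp n) ≠
      ⊤ := by
  have h1 : ∫⁻ a, ENNReal.ofReal ((a (dg n n) - a (dg n 0)) ^ 2 * ∏ v, wh (loc (cn n) a v))
      ∂bs (pp n) ≤ ENNReal.ofReal ((2 * n) ^ 2) * vol n (pp n).1 ∅ Set.univ := by
    rw [← kn_vol, ← lintegral_const_mul _ (kn_prod_meas n).ennreal_ofReal]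
    apply lintegral_mono
    intro a
    show ENNReal.ofReal ((a (dg n n) - a (dg n 0)) ^ 2 * ∏ v, wh (loc (cn n) a v)) ≤
      ENNReal.ofReal ((2 * n) ^ 2) * ENNReal.ofReal (∏ v, wh (loc (cn n) a v))
    rw [← ENNReal.ofReal_mul (by positivity)]
    exact ENNReal.ofReal_le_ofReal (kn_bd n a)
  intro hc
  rw [hc, top_le_iff] at h1
  exact ENNReal.mul_ne_top ENNReal.ofReal_ne_top (vol_fin n _) h1

theorem kn_Zt (n : ℕ) [NeZero n] :
    Zt wh (cn n) (pp n) 0 = (vol n (pp n).1 ∅ Set.univ).toReal := by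
  unfold Zt
  have h : ∀ a : Ev n → ℝ, wt wh (cn n) 0 a = ∏ v, wh (loc (cn n) a v) := by
    intro a
    unfold wt dot
    simp
  simp only [h]
  rw [integral_eq_lintegral_of_nonneg_ae (Filter.Eventually.of_forall fun a => kn_prod_nn n a)
    (kn_prod_meas n).aestronglyMeasurable, kn_vol]

theorem kn_muh (n : ℕ) [NeZero n] :
    ∫⁻ a, ENNReal.ofReal ((a (dg n n) - a (dg n 0)) ^ 2) ∂muh n 0 =
      (∫⁻ a, ENNReal.ofReal ((a (dg n n) - a (dg n 0)) ^ 2 * ∏ v, wh (loc (cn n) a v))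
        ∂bs (pp n)) * (vol n (pp n).1 ∅ Set.univ)⁻¹ := by
  have hV0 := vol_pos n (pp n).1
  have hV1 := vol_fin n (pp n).1
  have hVr : 0 < (vol n (pp n).1 ∅ Set.univ).toReal := ENNReal.toReal_pos hV0 hV1
  have h : ∀ a : Ev n → ℝ, wt wh (cn n) 0 a = ∏ v, wh (loc (cn n) a v) := by
    intro a
    unfold wt dot
    simp
  unfold muh mu
  rw [kn_Zt]
  simp only [h]
  rw [lintegral_withDensity_eq_lintegral_mul _ ((kn_prod_meas n).div_const _).ennreal_ofReal
    (kn_X_meas n).ennreal_ofReal]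
  rw [← lintegral_mul_const _ (kn_XP_meas n (kn_prod_meas n))]
  apply lintegral_congr
  intro a
  simp only [Pi.mul_apply]
  rw [ENNReal.ofReal_div_of_pos hVr, ENNReal.ofReal_toReal hV1, ENNReal.ofReal_mul (sq_nonneg _),
    ENNReal.div_eq_inv_mul]
  ring

/-- the total weight and the second moment, summed over all sets `T` -/
theorem tot_FT (n : ℕ) [NeZero n] :
    (∑ T : Finset (Od n), ∫⁻ a, ENNReal.ofReal (FT n T a) ∂bs (pp n) =
      vol n (pp n).1 ∅ Set.univ) ∧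
    ∑ T : Finset (Od n),
        ∫⁻ a, ENNReal.ofReal ((a (dg n n) - a (dg n 0)) ^ 2 * FT n T a) ∂bs (pp n) =
      ENNReal.ofReal (∫ a, (a (dg n n) - a (dg n 0)) ^ 2 ∂muh n 0) *
        vol n (pp n).1 ∅ Set.univ := by
  have hm : ∀ T : Finset (Od n), Measurable (FT n T) := fun T =>
    (FT_meas n T (kn_cell n 0)).1
  have hnn : ∀ (T : Finset (Od n)) (a : Ev n → ℝ), 0 ≤ FT n T a := fun T a =>
    ((FT_meas n T (kn_cell n 0)).2.2 a).1
  constructor
  · rw [← lintegral_finsetSum _ fun T _ => (hm T).ennreal_ofReal, ← kn_vol]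
    apply lintegral_congr
    intro a
    rw [← ENNReal.ofReal_sum_of_nonneg fun T _ => hnn T a, kn_sum]
  · have h1 : ∑ T : Finset (Od n),
        ∫⁻ a, ENNReal.ofReal ((a (dg n n) - a (dg n 0)) ^ 2 * FT n T a) ∂bs (pp n) =
        ∫⁻ a, ENNReal.ofReal ((a (dg n n) - a (dg n 0)) ^ 2 * ∏ v, wh (loc (cn n) a v))
          ∂bs (pp n) := by
      rw [← lintegral_finsetSum _ fun T _ => kn_XP_meas n (hm T)]
      apply lintegral_congr
      intro a
      rw [← ENNReal.ofReal_sum_of_nonneg fun T _ => mul_nonneg (sq_nonneg _) (hnn T a),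
        ← Finset.mul_sum, kn_sum]
    rw [h1]
    have hV0 := vol_pos n (pp n).1
    have hV1 := vol_fin n (pp n).1
    rw [integral_eq_lintegral_of_nonneg_ae (Filter.Eventually.of_forall fun a => sq_nonneg _)
      (kn_X_meas n).aestronglyMeasurable, kn_muh, ENNReal.ofReal_toReal, mul_assoc,
      ENNReal.inv_mul_cancel hV0 hV1, mul_one]
    exact ENNReal.mul_ne_top (kn_I_fin n) (ENNReal.inv_ne_top.2 hV0)

end HKK
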